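import Mathlib

set_option autoImplicit false

namespace Pool.Agent.Helper298.Wt

/-- finite strings of natural numbers, ordered lexicographically -/
abbrev Str := List ℕ

theorem take_le (τ : Str) (s : ℕ) : τ.take s ≤ τ := by
  rcases lt_or_ge s τ.length with h | h
  · apply le_of_lt
    rw [List.lt_iff_exists]
    left
    constructor
    · simp
    · simp; omega
  · rw [List.take_of_length_le h]

theorem le_take {q τ : Str} {s : ℕ} (h : q ≤ τ) (hq : q.length ≤ s) : q ≤ τ.take s := by
  by_contra hc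
  rw [not_le] at hc
  rcases le_or_gt τ.length s with hs | hs
  · rw [List.take_of_length_le hs] at hc
    exact absurd h (not_le.2 hc)
  · apply absurd h (not_le.2 _)
    rw [List.lt_iff_exists] at hc ⊢
    rcases hc with ⟨_, h2⟩ | ⟨i, h1, h2, h3, h4⟩
    · simp at h2; omega
    · right
      have h1' : i < τ.length := by simp at h1; omega
      refine ⟨i, h1', h2, ?_, ?_⟩
      · intro j hj
        have := h3 j hj
        simpa [List.getElem_take] using this
      · simpa [List.getElem_take] using h4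

theorem nil_le' (ρ : Str) : ([] : Str) ≤ ρ := not_lt.1 (List.not_lt_nil _)

/-- number of nodes of level `j` that are at least `q` -/
def c (T : ℕ → Finset Str) (j : ℕ) (q : Str) : ℕ := ((T j).filter (fun ρ => q ≤ ρ)).card

/-- product of the multipliers of all nodes of level `< s` -/
def Pi (T : ℕ → Finset Str) : ℕ → ℕ
  | 0 => 1
  | (l + 1) => Pi T l * (2 * l * Pi T l + 1) ^ (T l).card

/-- multiplier of a node of level `l` -/
def M (T : ℕ → Finset Str) (l : ℕ) : ℕ := 2 * l * Pi T l + 1

/-- weight at stage `s` of the cut point `q` -/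
def w (T : ℕ → Finset Str) (s : ℕ) (q : Str) : ℕ :=
  if c T s q = 0 then 0 else ∏ l ∈ Finset.range (s + 1), M T l ^ c T l q

/-- the level sets of a tree -/
structure IsLev (T : ℕ → Finset Str) : Prop where
  len : ∀ s, ∀ ρ ∈ T s, ρ.length = s
  pre : ∀ s, ∀ ρ ∈ T (s + 1), ρ.take s ∈ T s

variable {T : ℕ → Finset Str}

theorem IsLev.take (hT : IsLev T) {s j : ℕ} (h : s ≤ j) : ∀ ρ ∈ T j, ρ.take s ∈ T s := by
  induction j, h using Nat.le_induction with
  | base =>
    intro ρ hρ
    rw [List.take_of_length_le (le_of_eq (hT.len _ _ hρ))]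
    exact hρ
  | succ j hj ih =>
    intro ρ hρ
    have := ih _ (hT.pre _ _ hρ)
    rwa [List.take_take, min_eq_left hj] at this

theorem M_pos (T : ℕ → Finset Str) (l : ℕ) : 0 < M T l := by unfold M; omega

theorem one_le_M (T : ℕ → Finset Str) (l : ℕ) : 1 ≤ M T l := M_pos T l

theorem Pi_pos (T : ℕ → Finset Str) (l : ℕ) : 0 < Pi T l := by
  induction l with
  | zero => simp [Pi]
  | succ l ih =>
    simp only [Pi]
    positivity

theorem Pi_succ (T : ℕ → Finset Str) (l : ℕ) : Pi T (l + 1) = Pi T l * M T l ^ (T l).card := rfl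

theorem Pi_eq_prod (T : ℕ → Finset Str) (s : ℕ) :
    Pi T s = ∏ l ∈ Finset.range s, M T l ^ (T l).card := by
  induction s with
  | zero => simp [Pi]
  | succ s ih => rw [Pi_succ, Finset.prod_range_succ, ih]

theorem c_anti (j : ℕ) {q q' : Str} (h : q ≤ q') : c T j q' ≤ c T j q := by
  apply Finset.card_le_card
  intro ρ hρ
  simp only [Finset.mem_filter] at hρ ⊢
  exact ⟨hρ.1, h.trans hρ.2⟩

theorem c_le_card (j : ℕ) (q : Str) : c T j q ≤ (T j).card := Finset.card_filter_le _ _

theorem c_nil (j : ℕ) : c T j [] = (T j).card := by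
  unfold c
  congr 1
  apply Finset.filter_true_of_mem
  intro ρ _
  exact nil_le' ρ

theorem c_pos_of_mem {s : ℕ} {ρ : Str} (hρ : ρ ∈ T s) : 0 < c T s ρ := by
  unfold c
  rw [Finset.card_pos]
  exact ⟨ρ, by simp [hρ]⟩

/-- for a node `ρ` of level `s`, `q ≤ ρ` iff the rank of `ρ` is at most the rank of `q` -/
theorem le_iff_c_le {s : ℕ} {ρ q : Str} (hρ : ρ ∈ T s) : q ≤ ρ ↔ c T s ρ ≤ c T s q := by
  constructor
  · exact fun h => c_anti s h
  · intro h
    by_contra hc
    rw [not_le] at hc
    have hlt : c T s q < c T s ρ := by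
      apply Finset.card_lt_card
      rw [Finset.ssubset_iff_of_subset]
      · refine ⟨ρ, by simp [hρ], ?_⟩
        simp only [Finset.mem_filter, not_and, not_le]
        exact fun _ => hc
      · intro τ hτ
        simp only [Finset.mem_filter] at hτ ⊢
        exact ⟨hτ.1, hc.le.trans hτ.2⟩
    omega

/-- number of level `j` nodes whose level `s` restriction has rank at most `i` -/
def D (T : ℕ → Finset Str) (s j i : ℕ) : ℕ :=
  ((T j).filter (fun τ => c T s (τ.take s) ≤ i)).card

theorem D_mono (s j : ℕ) {i i' : ℕ} (h : i ≤ i') : D T s j i ≤ D T s j i' := by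
  apply Finset.card_le_card
  intro τ hτ
  simp only [Finset.mem_filter] at hτ ⊢
  exact ⟨hτ.1, hτ.2.trans h⟩

theorem c_eq_D (hT : IsLev T) {s j : ℕ} (h : s ≤ j) {q : Str} (hq : q.length ≤ s) :
    c T j q = D T s j (c T s q) := by
  unfold D
  rw [c]
  congr 1
  apply Finset.filter_congr
  intro τ hτ
  have hm := hT.take h τ hτ
  rw [← le_iff_c_le hm]
  constructor
  · exact fun h' => le_take h' hq
  · exact fun h' => h'.trans (take_le _ _)

theorem D_zero (hT : IsLev T) {s j : ℕ} (h : s ≤ j) : D T s j 0 = 0 := by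
  unfold D
  rw [Finset.card_eq_zero, Finset.filter_eq_empty_iff]
  intro τ hτ
  have := c_pos_of_mem (hT.take h τ hτ)
  omega

/-- the part of the weight coming from levels below `s` -/
def A (T : ℕ → Finset Str) (s : ℕ) (q : Str) : ℕ := ∏ l ∈ Finset.range s, M T l ^ c T l q

/-- the part of the weight coming from levels from `s` on, a function of the rank only -/
def Om (T : ℕ → Finset Str) (s j i : ℕ) : ℕ :=
  if D T s j i = 0 then 0 else ∏ l ∈ Finset.Ico s (j + 1), M T l ^ D T s l i

theorem A_pos (s : ℕ) (q : Str) : 0 < A T s q :=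
  Finset.prod_pos fun l _ => pow_pos (M_pos T l) _

theorem A_le (s : ℕ) (q : Str) : A T s q ≤ Pi T s := by
  rw [Pi_eq_prod]
  apply Finset.prod_le_prod'
  intro l _
  exact Nat.pow_le_pow_right (M_pos T l) (c_le_card l q)

theorem A_nil (s : ℕ) : A T s [] = Pi T s := by
  rw [Pi_eq_prod]
  unfold A
  simp [c_nil]

theorem w_eq (hT : IsLev T) {s j : ℕ} (h : s ≤ j) {q : Str} (hq : q.length ≤ s) :
    w T j q = A T s q * Om T s j (c T s q) := by
  unfold w Om A
  rw [c_eq_D hT h hq]
  split_ifs with h0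
  · simp
  · rw [Finset.range_eq_Ico, ← Finset.prod_Ico_consecutive _ (Nat.zero_le s) (by omega : s ≤ j + 1),
      Finset.range_eq_Ico]
    congr 1
    apply Finset.prod_congr rfl
    intro l hl
    rw [Finset.mem_Ico] at hl
    rw [c_eq_D hT hl.1 hq]

theorem Om_zero (hT : IsLev T) {s j : ℕ} (h : s ≤ j) : Om T s j 0 = 0 := by
  unfold Om; rw [if_pos (D_zero hT h)]

theorem Om_mono {s j : ℕ} {i i' : ℕ} (h : i ≤ i') : Om T s j i ≤ Om T s j i' := by
  unfold Om
  split_ifs with h1 h2 h2
  · exact le_refl _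
  · exact Nat.zero_le _
  · have := D_mono (T := T) s j h
    omega
  · apply Finset.prod_le_prod'
    intro l _
    exact Nat.pow_le_pow_right (M_pos T l) (D_mono s l h)

/-- dominance of attained ranks -/
theorem Om_dom (hT : IsLev T) {s j : ℕ} (hj : s ≤ j) {q q' : Str} (hq : q.length ≤ s)
    (hq' : q'.length ≤ s) (h : c T s q < c T s q') :
    M T s * Om T s j (c T s q) ≤ Om T s j (c T s q') := by
  unfold Om
  split_ifs with h1 h2 h2
  · simp
  · simp
  · have := D_mono (T := T) s j h.le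
    omega
  · rw [← Finset.prod_Ico_consecutive _ (Nat.le_succ s) (by omega : s + 1 ≤ j + 1),
      ← Finset.prod_Ico_consecutive (fun l => M T l ^ D T s l (c T s q')) (Nat.le_succ s)
        (by omega : s + 1 ≤ j + 1), ← mul_assoc]
    apply Nat.mul_le_mul
    · simp only [Nat.Ico_succ_singleton, Finset.prod_singleton]
      rw [← c_eq_D hT (le_refl s) hq, ← c_eq_D hT (le_refl s) hq', ← pow_succ']
      exact Nat.pow_le_pow_right (M_pos T s) h
    · apply Finset.prod_le_prod'
      intro l _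
      exact Nat.pow_le_pow_right (M_pos T l) (D_mono s l h.le)

theorem Om_self_pos (hT : IsLev T) {s : ℕ} {q : Str} (hq : q.length ≤ s) (h : 0 < c T s q) :
    0 < Om T s s (c T s q) := by
  unfold Om
  rw [if_neg]
  · exact Finset.prod_pos fun l _ => pow_pos (M_pos T l) _
  · rw [← c_eq_D hT (le_refl s) hq]
    omega

/-- weighted sums -/
def W (T : ℕ → Finset Str) (s : ℕ) (n : List (ℤ × Str)) : ℤ :=
  (n.map fun p => p.1 * (w T s p.2 : ℤ)).sum

def nrm (n : List (ℤ × Str)) : ℕ := (n.map fun p => p.1.natAbs).sum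

theorem W_cons (s : ℕ) (p : ℤ × Str) (n : List (ℤ × Str)) :
    W T s (p :: n) = p.1 * (w T s p.2 : ℤ) + W T s n := by simp [W]

theorem W_nil (s : ℕ) : W T s [] = 0 := by simp [W]

theorem nrm_cons (p : ℤ × Str) (n : List (ℤ × Str)) : nrm (p :: n) = p.1.natAbs + nrm n := by
  simp [nrm]

theorem W_append (s : ℕ) (n n' : List (ℤ × Str)) : W T s (n ++ n') = W T s n + W T s n' := by
  simp [W]

theorem nrm_append (n n' : List (ℤ × Str)) : nrm (n ++ n') = nrm n + nrm n' := by
  simp [nrm]

theorem W_filter (s : ℕ) (n : List (ℤ × Str)) (P : ℤ × Str → Prop) [DecidablePred P] :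
    W T s n = W T s (n.filter P) + W T s (n.filter (fun p => ¬ P p)) := by
  induction n with
  | nil => simp [W]
  | cons p n ih =>
    by_cases hp : P p
    · simp only [List.filter_cons, hp, decide_true, if_true, not_true_eq_false, decide_false,
        W_cons, ih]
      simp
      ring
    · simp only [List.filter_cons, hp, decide_false, not_false_eq_true, decide_true, if_true,
        W_cons, ih]
      simp
      ring

theorem nrm_filter (n : List (ℤ × Str)) (P : ℤ × Str → Prop) [DecidablePred P] :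
    nrm n = nrm (n.filter P) + nrm (n.filter (fun p => ¬ P p)) := by
  induction n with
  | nil => simp [nrm]
  | cons p n ih =>
    by_cases hp : P p
    · simp only [List.filter_cons, hp, decide_true, if_true, not_true_eq_false, decide_false,
        nrm_cons, ih]
      simp
      ring
    · simp only [List.filter_cons, hp, decide_false, not_false_eq_true, decide_true, if_true,
        nrm_cons, ih]
      simp
      ring

/-- coefficient sum with the low parts of the weights -/
def ksum (T : ℕ → Finset Str) (s : ℕ) (n : List (ℤ × Str)) : ℤ :=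
  (n.map fun p => p.1 * (A T s p.2 : ℤ)).sum

theorem abs_ksum_le (s : ℕ) (n : List (ℤ × Str)) : |ksum T s n| ≤ (nrm n * Pi T s : ℕ) := by
  induction n with
  | nil => simp [ksum, nrm]
  | cons p n ih =>
    have h1 : ksum T s (p :: n) = p.1 * (A T s p.2 : ℤ) + ksum T s n := by simp [ksum]
    rw [h1, nrm_cons]
    refine (abs_add_le _ _).trans ?_
    rw [abs_mul, add_mul, Nat.cast_add]
    apply add_le_add _ ih
    rw [Nat.cast_mul, Int.natCast_natAbs]
    apply mul_le_mul_of_nonneg_left _ (abs_nonneg _)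
    rw [abs_of_nonneg (by positivity)]
    exact_mod_cast A_le s p.2

/-- the sum over a list of a single rank -/
theorem W_single (hT : IsLev T) {s j : ℕ} (hj : s ≤ j) (i : ℕ) (n : List (ℤ × Str))
    (hl : ∀ p ∈ n, p.2.length ≤ s) (hi : ∀ p ∈ n, c T s p.2 = i) :
    W T j n = ksum T s n * (Om T s j i : ℤ) := by
  induction n with
  | nil => simp [W, ksum]
  | cons p n ih =>
    have h1 : ksum T s (p :: n) = p.1 * (A T s p.2 : ℤ) + ksum T s n := by simp [ksum]
    rw [W_cons, h1, ih (fun p hp => hl p (List.mem_cons_of_mem _ hp))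
      (fun p hp => hi p (List.mem_cons_of_mem _ hp)),
      w_eq hT hj (hl p List.mem_cons_self), hi p List.mem_cons_self]
    push_cast
    ring

theorem abs_W_le (hT : IsLev T) {s j : ℕ} (hj : s ≤ j) (n : List (ℤ × Str)) (B : ℕ)
    (hl : ∀ p ∈ n, p.2.length ≤ s) (hB : ∀ p ∈ n, M T s * Om T s j (c T s p.2) ≤ B) :
    (M T s : ℤ) * |W T j n| ≤ (nrm n * Pi T s * B : ℕ) := by
  induction n with
  | nil => simp [W, nrm]
  | cons p n ih =>
    have ih' := ih (fun p hp => hl p (List.mem_cons_of_mem _ hp))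
      (fun p hp => hB p (List.mem_cons_of_mem _ hp))
    rw [W_cons, nrm_cons]
    have h2 : (M T s : ℤ) * |p.1 * (w T j p.2 : ℤ)| ≤ (p.1.natAbs * Pi T s * B : ℕ) := by
      rw [abs_mul, abs_of_nonneg (by positivity : (0 : ℤ) ≤ (w T j p.2 : ℤ)),
        w_eq hT hj (hl p List.mem_cons_self)]
      have h3 := hB p List.mem_cons_self
      have h4 := A_le (T := T) s p.2
      push_cast
      calc (M T s : ℤ) * (|p.1| * ((A T s p.2 : ℤ) * (Om T s j (c T s p.2) : ℤ)))
          = |p.1| * (A T s p.2 : ℤ) * ((M T s : ℤ) * (Om T s j (c T s p.2) : ℤ)) := by ring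
        _ ≤ |p.1| * (Pi T s : ℤ) * (B : ℤ) := by
            apply mul_le_mul
            · apply mul_le_mul_of_nonneg_left _ (abs_nonneg _)
              exact_mod_cast h4
            · exact_mod_cast h3
            · positivity
            · positivity
    calc (M T s : ℤ) * |p.1 * (w T j p.2 : ℤ) + W T j n|
        ≤ (M T s : ℤ) * (|p.1 * (w T j p.2 : ℤ)| + |W T j n|) := by
          apply mul_le_mul_of_nonneg_left (abs_add_le _ _) (by positivity)
      _ = (M T s : ℤ) * |p.1 * (w T j p.2 : ℤ)| + (M T s : ℤ) * |W T j n| := by ring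
      _ ≤ (p.1.natAbs * Pi T s * B : ℕ) + (nrm n * Pi T s * B : ℕ) := add_le_add h2 ih'
      _ = _ := by push_cast; ring

/-- Structure of weighted sums: from stage `s` on a weighted sum of small norm is dominated by
a single rank, independent of the stage. -/
theorem trich_aux (hT : IsLev T) (s : ℕ) (m : ℕ) : ∀ n : List (ℤ × Str),
    (∀ p ∈ n, p.2.length ≤ s) → nrm n ≤ s → (∀ p ∈ n, c T s p.2 ≤ m) →
    ∃ (i : ℕ) (k : ℤ), ((i = 0 ∧ k = 0) ∨ (k ≠ 0 ∧ 0 < i ∧ ∃ p ∈ n, c T s p.2 = i)) ∧
      ∀ j, s ≤ j → 2 * |W T j n - k * (Om T s j i : ℤ)| ≤ (Om T s j i : ℤ) := by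
  induction m with
  | zero =>
    intro n hl _ hm
    refine ⟨0, 0, Or.inl ⟨rfl, rfl⟩, fun j hj => ?_⟩
    rw [W_single hT hj 0 n hl (fun p hp => Nat.le_zero.1 (hm p hp)), Om_zero hT hj]
    simp
  | succ m ih =>
    intro n hl hn hm
    set top := n.filter (fun p => c T s p.2 = m + 1) with htop
    set rest := n.filter (fun p => ¬ c T s p.2 = m + 1) with hrest
    have hW : ∀ j, W T j n = W T j top + W T j rest := fun j =>
      W_filter j n (fun p => c T s p.2 = m + 1)
    have hN : nrm n = nrm top + nrm rest := nrm_filter n (fun p => c T s p.2 = m + 1)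
    have htopm : ∀ p ∈ top, p ∈ n ∧ c T s p.2 = m + 1 := fun p hp => by
      simpa [htop, List.mem_filter] using hp
    have hrestm : ∀ p ∈ rest, p ∈ n ∧ ¬ c T s p.2 = m + 1 := fun p hp => by
      simpa [hrest, List.mem_filter] using hp
    have hWtop : ∀ j, s ≤ j → W T j top = ksum T s top * (Om T s j (m + 1) : ℤ) := fun j hj =>
      W_single hT hj (m + 1) top (fun p hp => hl p (htopm p hp).1) (fun p hp => (htopm p hp).2)
    by_cases hk : ksum T s top = 0
    · obtain ⟨i, k, h1, h2⟩ := ih rest (fun p hp => hl p (hrestm p hp).1) (by omega)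
        (fun p hp => by
          have := hm p (hrestm p hp).1
          have := (hrestm p hp).2
          omega)
      refine ⟨i, k, ?_, fun j hj => ?_⟩
      · rcases h1 with h1 | ⟨h1, h1', p, hp, hpi⟩
        · exact Or.inl h1
        · exact Or.inr ⟨h1, h1', p, (hrestm p hp).1, hpi⟩
      · rw [hW, hWtop j hj, hk, zero_mul, zero_add]
        exact h2 j hj
    · have hex : ∃ p ∈ n, c T s p.2 = m + 1 := by
        by_contra hcon
        push Not at hcon
        apply hk
        have : top = [] := by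
          rw [htop, List.filter_eq_nil_iff]
          intro p hp
          simpa using hcon p hp
        rw [this]
        simp [ksum]
      obtain ⟨p0, hp0, hp0c⟩ := hex
      refine ⟨m + 1, ksum T s top, Or.inr ⟨hk, Nat.succ_pos m, p0, hp0, hp0c⟩, fun j hj => ?_⟩
      rw [hW, hWtop j hj, add_sub_cancel_left]
      have hb := abs_W_le hT hj rest (Om T s j (m + 1)) (fun p hp => hl p (hrestm p hp).1)
        (fun p hp => by
          have h1 := hm p (hrestm p hp).1
          have h2 := (hrestm p hp).2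
          have h3 := Om_dom hT hj (hl p (hrestm p hp).1) (hl p0 hp0) (by omega)
          rw [hp0c] at h3
          exact h3)
      have hM : 2 * (nrm rest * Pi T s) ≤ M T s := by
        unfold M
        have h5 : nrm rest * Pi T s ≤ s * Pi T s := Nat.mul_le_mul_right _ (by omega)
        nlinarith
      have hMpos : (0 : ℤ) < (M T s : ℤ) := by exact_mod_cast M_pos T s
      have h6 : (M T s : ℤ) * (2 * |W T j rest|) ≤ (M T s : ℤ) * (Om T s j (m + 1) : ℤ) := by
        calc (M T s : ℤ) * (2 * |W T j rest|) = 2 * ((M T s : ℤ) * |W T j rest|) := by ring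
          _ ≤ 2 * (nrm rest * Pi T s * Om T s j (m + 1) : ℕ) := by
              apply mul_le_mul_of_nonneg_left hb (by norm_num)
          _ = ((2 * (nrm rest * Pi T s) : ℕ) : ℤ) * (Om T s j (m + 1) : ℤ) := by
              push_cast; ring
          _ ≤ _ := by
              apply mul_le_mul_of_nonneg_right _ (by positivity)
              exact_mod_cast hM
      exact le_of_mul_le_mul_left h6 hMpos

theorem trich (hT : IsLev T) (s : ℕ) (n : List (ℤ × Str))
    (hl : ∀ p ∈ n, p.2.length ≤ s) (hn : nrm n ≤ s) :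
    ∃ (i : ℕ) (k : ℤ), ((i = 0 ∧ k = 0) ∨ (k ≠ 0 ∧ 0 < i ∧ ∃ p ∈ n, c T s p.2 = i)) ∧
      ∀ j, s ≤ j → 2 * |W T j n - k * (Om T s j i : ℤ)| ≤ (Om T s j i : ℤ) :=
  trich_aux hT s (T s).card n hl hn (fun p _ => c_le_card s p.2)

/-- a weighted sum that is nonnegative at stage `s` stays nonnegative -/
theorem W_nonneg_stable (hT : IsLev T) {s j : ℕ} (hj : s ≤ j) (n : List (ℤ × Str))
    (hl : ∀ p ∈ n, p.2.length ≤ s) (hn : nrm n ≤ s) (h : 0 ≤ W T s n) : 0 ≤ W T j n := by
  obtain ⟨i, k, h1, h2⟩ := trich hT s n hl hn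
  have hs := h2 s (le_refl s)
  have hj' := h2 j hj
  rcases h1 with ⟨rfl, rfl⟩ | ⟨hk, hi, p, hp, hpi⟩
  · rw [Om_zero hT hj] at hj'
    have : |W T j n - 0 * ((0 : ℕ) : ℤ)| ≤ 0 := by
      have := abs_nonneg (W T j n - 0 * ((0 : ℕ) : ℤ))
      push_cast at *
      linarith
    have h0 : W T j n - 0 * ((0 : ℕ) : ℤ) = 0 := abs_nonpos_iff.1 this
    push_cast at h0
    linarith
  · have hpos : (0 : ℤ) < (Om T s s i : ℤ) := by
      have := Om_self_pos hT (hl p hp) (by omega : 0 < c T s p.2)
      rw [hpi] at this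
      exact_mod_cast this
    have hkpos : 0 < k := by
      by_contra hc
      have hk1 : k ≤ -1 := by omega
      have := abs_le.1 (show |W T s n - k * (Om T s s i : ℤ)| ≤ (Om T s s i : ℤ) / 2 by omega)
      nlinarith [this.2, Int.ediv_le_self (b := 2) (a := (Om T s s i : ℤ)) hpos.le,
        Int.mul_ediv_self_le (x := (Om T s s i : ℤ)) (k := 2) (by norm_num)]
    have h3 : -(W T j n - k * (Om T s j i : ℤ)) ≤ |W T j n - k * (Om T s j i : ℤ)| :=
      neg_le_abs _
    have h4 : (0 : ℤ) ≤ (Om T s j i : ℤ) := by positivity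
    nlinarith

theorem w_le_Pi_mul (hT : IsLev T) {s j : ℕ} (hj : s ≤ j) {q q' : Str} (hq : q.length ≤ s)
    (hq' : q'.length ≤ s) (h : c T s q ≤ c T s q') : w T j q ≤ Pi T s * w T j q' := by
  rw [w_eq hT hj hq, w_eq hT hj hq']
  calc A T s q * Om T s j (c T s q) ≤ Pi T s * Om T s j (c T s q') :=
        Nat.mul_le_mul (A_le s q) (Om_mono h)
    _ ≤ Pi T s * (A T s q' * Om T s j (c T s q')) :=
        Nat.mul_le_mul_left _ (Nat.le_mul_of_pos_left _ (A_pos s q'))

theorem w_zero (hT : IsLev T) {s j : ℕ} (hj : s ≤ j) {q : Str} (hq : q.length ≤ s)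
    (h : c T s q = 0) : w T j q = 0 := by
  rw [w_eq hT hj hq, h, Om_zero hT hj, mul_zero]

theorem w_pos {j : ℕ} {q : Str} (h : 0 < c T j q) : 0 < w T j q := by
  unfold w
  rw [if_neg (by omega)]
  exact Finset.prod_pos fun l _ => pow_pos (M_pos T l) _

theorem w_anti (j : ℕ) {q q' : Str} (h : q ≤ q') : w T j q' ≤ w T j q := by
  unfold w
  have h1 := c_anti (T := T) j h
  split_ifs with h2 h3 h3
  · exact le_refl _
  · exact Nat.zero_le _
  · omega
  · apply Finset.prod_le_prod'
    intro l _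
    exact Nat.pow_le_pow_right (M_pos T l) (c_anti l h)

theorem w_growth {s j : ℕ} (hj : s ≤ j) {ρ q : Str} (hρ : ρ ∈ T s) (h : ρ < q) :
    M T s * w T j q ≤ w T j ρ := by
  unfold w
  have h1 := c_anti (T := T) j h.le
  split_ifs with h2 h3 h3
  · simp
  · simp
  · omega
  · have hs : c T s q < c T s ρ := by
      by_contra hcon
      exact absurd ((le_iff_c_le hρ).2 (not_lt.1 hcon)) (not_le.2 h)
    have hmem : s ∈ Finset.range (j + 1) := Finset.mem_range.2 (by omega)
    rw [← Finset.mul_prod_erase _ _ hmem, ← Finset.mul_prod_erase _ _ hmem, ← mul_assoc,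
      ← pow_succ']
    apply Nat.mul_le_mul
    · exact Nat.pow_le_pow_right (M_pos T s) hs
    · apply Finset.prod_le_prod'
      intro l _
      exact Nat.pow_le_pow_right (M_pos T l) (c_anti l h.le)

theorem M_odd (l : ℕ) : Odd (M T l) := by
  unfold M
  exact ⟨l * Pi T l, by ring⟩

theorem w_nil_odd {j : ℕ} (h : (T j).Nonempty) : Odd (w T j []) := by
  unfold w
  rw [c_nil, if_neg (by rw [Finset.card_eq_zero]; exact h.ne_empty)]
  apply Finset.prod_induction _ Odd (fun a b ha hb => ha.mul hb) odd_one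
  intro l _
  exact (M_odd l).pow

/-- final form of the trichotomy -/
theorem trich' (hT : IsLev T) (s : ℕ) (n : List (ℤ × Str))
    (hl : ∀ p ∈ n, p.2.length ≤ s) (hn : nrm n ≤ s) :
    (∀ j, s ≤ j → W T j n = 0) ∨
    (∃ q : Str, ∃ C : ℕ, q.length ≤ s ∧ 0 < c T s q ∧ ∀ j, s ≤ j →
      (w T j q : ℤ) ≤ C * W T j n ∧ W T j n ≤ C * (w T j q : ℤ)) ∨
    (∃ q : Str, ∃ C : ℕ, q.length ≤ s ∧ 0 < c T s q ∧ ∀ j, s ≤ j →
      (w T j q : ℤ) ≤ C * -W T j n ∧ -W T j n ≤ C * (w T j q : ℤ)) := by
  obtain ⟨i, k, h1, h2⟩ := trich hT s n hl hn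
  rcases h1 with ⟨rfl, rfl⟩ | ⟨hk, hi, p, hp, hpi⟩
  · left
    intro j hj
    have hj' := h2 j hj
    rw [Om_zero hT hj] at hj'
    have h0 : |W T j n - 0 * ((0 : ℕ) : ℤ)| ≤ 0 := by
      have := abs_nonneg (W T j n - 0 * ((0 : ℕ) : ℤ))
      push_cast at *
      linarith
    have h0 : W T j n - 0 * ((0 : ℕ) : ℤ) = 0 := abs_nonpos_iff.1 h0
    push_cast at h0
    linarith
  · right
    have hw : ∀ j, s ≤ j → (Om T s j i : ℤ) ≤ w T j p.2 ∧
        (w T j p.2 : ℤ) ≤ Pi T s * (Om T s j i : ℤ) := by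
      intro j hj
      rw [w_eq hT hj (hl p hp), hpi]
      constructor
      · exact_mod_cast Nat.le_mul_of_pos_left _ (A_pos s p.2)
      · exact_mod_cast Nat.mul_le_mul_right _ (A_le s p.2)
    have hPi : (1 : ℤ) ≤ Pi T s := by exact_mod_cast Pi_pos T s
    rcases lt_or_gt_of_ne hk with hneg | hpos
    · right
      refine ⟨p.2, 2 * Pi T s + 2 * k.natAbs + 1, hl p hp, by omega, fun j hj => ?_⟩
      obtain ⟨hw1, hw2⟩ := hw j hj
      have h3 := abs_le.1 (show |W T j n - k * (Om T s j i : ℤ)| ≤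
        |W T j n - k * (Om T s j i : ℤ)| from le_refl _)
      have h4 := h2 j hj
      have h5 : (0 : ℤ) ≤ (Om T s j i : ℤ) := by positivity
      have hk' : (k.natAbs : ℤ) = -k := by
        rw [Int.natCast_natAbs, abs_of_neg hneg]
      push_cast
      rw [abs_of_neg hneg]
      have hk1 : k ≤ -1 := by omega
      have h6 : (Om T s j i : ℤ) ≤ 2 * -W T j n := by nlinarith [h3.1, h3.2]
      have h7 : 2 * -W T j n ≤ (2 * -k + 1) * (Om T s j i : ℤ) := by nlinarith [h3.1, h3.2]
      have h8 : 0 ≤ -W T j n := by linarith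
      constructor
      · nlinarith
      · nlinarith
    · left
      refine ⟨p.2, 2 * Pi T s + 2 * k.natAbs + 1, hl p hp, by omega, fun j hj => ?_⟩
      obtain ⟨hw1, hw2⟩ := hw j hj
      have h3 := abs_le.1 (show |W T j n - k * (Om T s j i : ℤ)| ≤
        |W T j n - k * (Om T s j i : ℤ)| from le_refl _)
      have h4 := h2 j hj
      have h5 : (0 : ℤ) ≤ (Om T s j i : ℤ) := by positivity
      push_cast
      rw [abs_of_pos hpos]
      have h6 : (Om T s j i : ℤ) ≤ 2 * W T j n := by nlinarith [h3.1, h3.2]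
      have h7 : 2 * W T j n ≤ (2 * k + 1) * (Om T s j i : ℤ) := by nlinarith [h3.1, h3.2]
      have h8 : 0 ≤ W T j n := by linarith
      constructor
      · nlinarith
      · nlinarith

end Pool.Agent.Helper298.Wt
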