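import Mathlib
import Pool.Agent.Helper298.Wt

set_option autoImplicit false

namespace Pool.Agent.Helper298.Alg

open Pool.Agent.Helper298.Wt

noncomputable section

/-- polynomials over the field with two elements in variables indexed by strings -/
abbrev A := MvPolynomial Str (ZMod 2)

abbrev K := FractionRing A

/-- the substitution `t_q ↦ t_q X ^ w q` -/
def ps (w : Str → ℕ) : A →+* Polynomial A :=
  MvPolynomial.eval₂Hom (Polynomial.C.comp MvPolynomial.C)
    (fun q => Polynomial.C (MvPolynomial.X q) * Polynomial.X ^ w q)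

def wgt (w : Str → ℕ) (μ : Str →₀ ℕ) : ℕ := μ.sum fun q k => k * w q

theorem ps_monomial (w : Str → ℕ) (μ : Str →₀ ℕ) (a : ZMod 2) :
    ps w (MvPolynomial.monomial μ a) =
      Polynomial.C (MvPolynomial.monomial μ a) * Polynomial.X ^ wgt w μ := by
  unfold ps wgt
  rw [MvPolynomial.coe_eval₂Hom, MvPolynomial.eval₂_monomial, MvPolynomial.monomial_eq]
  simp only [RingHom.coe_comp, Function.comp_apply, Finsupp.prod, Finsupp.sum, mul_pow,
    Finset.prod_mul_distrib, map_mul, map_prod, map_pow, ← pow_mul]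
  rw [Finset.prod_pow_eq_pow_sum]
  simp only [mul_comm (w _)]
  ring

theorem coeff_ps (w : Str → ℕ) (f : A) (j : ℕ) (μ : Str →₀ ℕ) :
    MvPolynomial.coeff μ ((ps w f).coeff j) = if wgt w μ = j then MvPolynomial.coeff μ f else 0 := by
  induction f using MvPolynomial.induction_on' with
  | monomial ν a =>
    rw [ps_monomial, Polynomial.coeff_C_mul, Polynomial.coeff_X_pow, MvPolynomial.coeff_monomial]
    by_cases h : ν = μ
    · subst h
      by_cases h2 : wgt w ν = j
      · simp [h2]
      · have h2' : ¬ j = wgt w ν := fun h => h2 h.symm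
        simp [h2, h2']
    · rw [if_neg h]
      split_ifs
      · simp [MvPolynomial.coeff_monomial, h]
      · simp [MvPolynomial.coeff_monomial, h]
      · simp
      · simp
  | add p q hp hq =>
    rw [map_add, Polynomial.coeff_add, MvPolynomial.coeff_add, hp, hq, MvPolynomial.coeff_add]
    split_ifs <;> simp

theorem ps_ne_zero (w : Str → ℕ) {f : A} (hf : f ≠ 0) : ps w f ≠ 0 := by
  obtain ⟨μ, hμ⟩ := MvPolynomial.ne_zero_iff.1 hf
  intro h
  have := coeff_ps w f (wgt w μ) μ
  rw [h, if_pos rfl] at this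
  simp at this
  exact hμ this.symm

/-- monomial order of a nonzero polynomial -/
def o (w : Str → ℕ) (f : A) : ℕ := (ps w f).natTrailingDegree

theorem o_le (w : Str → ℕ) {f : A} {μ : Str →₀ ℕ} (hμ : MvPolynomial.coeff μ f ≠ 0) :
    o w f ≤ wgt w μ := by
  apply Polynomial.natTrailingDegree_le_of_ne_zero
  intro h
  have := coeff_ps w f (wgt w μ) μ
  rw [h, if_pos rfl] at this
  simp at this
  exact hμ this.symm

theorem o_mem (w : Str → ℕ) {f : A} (hf : f ≠ 0) :
    ∃ μ, MvPolynomial.coeff μ f ≠ 0 ∧ o w f = wgt w μ := by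
  have h1 : (ps w f).coeff (o w f) ≠ 0 := by
    unfold o
    rw [Polynomial.coeff_natTrailingDegree_ne_zero]
    exact ps_ne_zero w hf
  obtain ⟨μ, hμ⟩ := MvPolynomial.ne_zero_iff.1 h1
  rw [coeff_ps] at hμ
  by_cases h2 : wgt w μ = o w f
  · rw [if_pos h2] at hμ
    exact ⟨μ, hμ, h2.symm⟩
  · rw [if_neg h2] at hμ
    exact absurd rfl hμ

theorem o_mul (w : Str → ℕ) {f g : A} (hf : f ≠ 0) (hg : g ≠ 0) : o w (f * g) = o w f + o w g := by
  unfold o
  rw [map_mul]
  exact Polynomial.natTrailingDegree_mul (ps_ne_zero w hf) (ps_ne_zero w hg)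

theorem o_add (w : Str → ℕ) {f g : A} (hfg : f + g ≠ 0) :
    min (o w f) (o w g) ≤ o w (f + g) := by
  obtain ⟨μ, hμ, h1⟩ := o_mem w hfg
  rw [h1]
  rw [MvPolynomial.coeff_add] at hμ
  by_cases h : MvPolynomial.coeff μ f = 0
  · rw [h, zero_add] at hμ
    exact (min_le_right _ _).trans (o_le w hμ)
  · exact (min_le_left _ _).trans (o_le w h)

theorem o_one (w : Str → ℕ) : o w 1 = 0 := by simp [o]

theorem o_X (w : Str → ℕ) (q : Str) : o w (MvPolynomial.X q) = w q := by
  obtain ⟨μ, hμ, h1⟩ := o_mem w (f := MvPolynomial.X q) (MvPolynomial.X_ne_zero q)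
  rw [h1]
  rw [MvPolynomial.coeff_X] at hμ
  split_ifs at hμ with h
  · subst h
    simp [wgt]
  · exact absurd rfl hμ

/-- the valuation on nonzero elements of the fraction field -/
def v (w : Str → ℕ) (r : K) : ℤ :=
  (o w (IsLocalization.sec (nonZeroDivisors A) r).1 : ℤ) -
    o w ((IsLocalization.sec (nonZeroDivisors A) r).2 : A)

theorem am_ne_zero {f : A} (hf : f ≠ 0) : algebraMap A K f ≠ 0 := by
  intro h
  exact hf ((IsFractionRing.injective A K) (by rw [h, map_zero]))

theorem v_div (w : Str → ℕ) {f g : A} (hf : f ≠ 0) (hg : g ≠ 0) :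
    v w (algebraMap A K f / algebraMap A K g) = (o w f : ℤ) - o w g := by
  set r := algebraMap A K f / algebraMap A K g with hr
  have h1 := IsLocalization.sec_spec (nonZeroDivisors A) r
  set f' := (IsLocalization.sec (nonZeroDivisors A) r).1 with hf'
  set g' := ((IsLocalization.sec (nonZeroDivisors A) r).2 : A) with hg'
  have hg'0 : g' ≠ 0 := nonZeroDivisors.coe_ne_zero _
  have h2 : algebraMap A K (f * g') = algebraMap A K (f' * g) := by
    rw [map_mul, map_mul, ← h1, hr]
    field_simp [am_ne_zero hg]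
  have h3 : f * g' = f' * g := IsFractionRing.injective A K h2
  have hf'0 : f' ≠ 0 := by
    intro h
    rw [h, zero_mul] at h3
    exact (mul_ne_zero hf hg'0) h3
  have h4 := congrArg (o w) h3
  rw [o_mul w hf hg'0, o_mul w hf'0 hg] at h4
  unfold v
  rw [← hf', ← hg']
  omega

theorem exists_rep {r : K} (hr : r ≠ 0) :
    ∃ f g : A, f ≠ 0 ∧ g ≠ 0 ∧ r = algebraMap A K f / algebraMap A K g := by
  obtain ⟨f, g, hg, h⟩ := IsFractionRing.div_surjective (A := A) r
  refine ⟨f, g, ?_, nonZeroDivisors.ne_zero hg, h.symm⟩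
  rintro rfl
  apply hr
  rw [← h]; simp

theorem v_mul (w : Str → ℕ) {r r' : K} (hr : r ≠ 0) (hr' : r' ≠ 0) :
    v w (r * r') = v w r + v w r' := by
  obtain ⟨f, g, hf, hg, rfl⟩ := exists_rep hr
  obtain ⟨f', g', hf', hg', rfl⟩ := exists_rep hr'
  rw [div_mul_div_comm, ← map_mul, ← map_mul, v_div w (mul_ne_zero hf hf') (mul_ne_zero hg hg'),
    v_div w hf hg, v_div w hf' hg', o_mul w hf hf', o_mul w hg hg']
  push_cast
  ring

theorem v_one (w : Str → ℕ) : v w 1 = 0 := by
  have := v_mul w (r := 1) (r' := 1) one_ne_zero one_ne_zero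
  rw [mul_one] at this
  omega

theorem v_inv (w : Str → ℕ) {r : K} (hr : r ≠ 0) : v w r⁻¹ = - v w r := by
  have := v_mul w hr (inv_ne_zero hr)
  rw [mul_inv_cancel₀ hr, v_one] at this
  omega

theorem v_pow (w : Str → ℕ) {r : K} (hr : r ≠ 0) (n : ℕ) : v w (r ^ n) = n * v w r := by
  induction n with
  | zero => simp [v_one]
  | succ n ih =>
    rw [pow_succ, v_mul w (pow_ne_zero n hr) hr, ih]
    push_cast
    ring

theorem v_neg (w : Str → ℕ) (r : K) : v w (-r) = v w r := by
  have h2 : (2 : K) = 0 := by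
    have h2 : (2 : A) = 0 := CharTwo.two_eq_zero
    calc (2 : K) = algebraMap A K 2 := (map_ofNat (algebraMap A K) 2).symm
      _ = 0 := by rw [h2, map_zero]
  have : -r = r := by
    have : r + r = 0 := by rw [← two_mul, h2, zero_mul]
    exact neg_eq_of_add_eq_zero_left this
  rw [this]

theorem v_add (w : Str → ℕ) {r r' : K} (hr : r ≠ 0) (hr' : r' ≠ 0) (h : r + r' ≠ 0) :
    min (v w r) (v w r') ≤ v w (r + r') := by
  obtain ⟨f, g, hf, hg, rfl⟩ := exists_rep hr
  obtain ⟨f', g', hf', hg', rfl⟩ := exists_rep hr'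
  have h1 : algebraMap A K f / algebraMap A K g + algebraMap A K f' / algebraMap A K g' =
      algebraMap A K (f * g' + g * f') / algebraMap A K (g * g') := by
    rw [div_add_div _ _ (am_ne_zero hg) (am_ne_zero hg')]
    simp only [map_add, map_mul]
  rw [h1] at h ⊢
  have hn : f * g' + g * f' ≠ 0 := by
    intro h0
    apply h
    rw [h0]; simp
  rw [v_div w hf hg, v_div w hf' hg', v_div w hn (mul_ne_zero hg hg'), o_mul w hg hg']
  have := o_add w hn
  rw [o_mul w hf hg', o_mul w hg hf'] at this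
  push_cast at *
  omega

/-- the variable attached to a string, in the fraction field -/
def t (q : Str) : K := algebraMap A K (MvPolynomial.X q)

theorem t_ne_zero (q : Str) : t q ≠ 0 := am_ne_zero (MvPolynomial.X_ne_zero q)

theorem v_t (w : Str → ℕ) (q : Str) : v w (t q) = w q := by
  have := v_div w (f := MvPolynomial.X q) (g := 1) (MvPolynomial.X_ne_zero q) one_ne_zero
  rw [map_one, div_one, o_X, o_one] at this
  unfold t
  rw [this]
  simp

/-! ### the ring and the ideal -/

/-- elements whose value is eventually nonnegative -/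
def V (wt : ℕ → Str → ℕ) : Subring K where
  carrier := {r | r = 0 ∨ ∃ S, ∀ s, S ≤ s → 0 ≤ v (wt s) r}
  zero_mem' := Or.inl rfl
  one_mem' := Or.inr ⟨0, fun s _ => by rw [v_one]⟩
  neg_mem' := by
    rintro r (rfl | ⟨S, hS⟩)
    · left; simp
    · right; exact ⟨S, fun s hs => by rw [v_neg]; exact hS s hs⟩
  add_mem' := by
    intro a b ha hb
    simp only [Set.mem_ofPred_eq] at *
    by_cases hab : a + b = 0
    · exact Or.inl hab
    · rcases ha with rfl | ⟨S, hS⟩
      · simpa using hb
      · rcases hb with rfl | ⟨S', hS'⟩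
        · right; simp only [add_zero]; exact ⟨S, hS⟩
        · by_cases ha0 : a = 0
          · right; subst ha0; simp only [zero_add]; exact ⟨S', hS'⟩
          by_cases hb0 : b = 0
          · right; subst hb0; simp only [add_zero]; exact ⟨S, hS⟩
          right
          refine ⟨max S S', fun s hs => ?_⟩
          have h1 := hS s (le_of_max_le_left hs)
          have h2 := hS' s (le_of_max_le_right hs)
          have h3 := v_add (wt s) ha0 hb0 hab
          omega
  mul_mem' := by
    intro a b ha hb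
    simp only [Set.mem_ofPred_eq] at *
    by_cases ha0 : a = 0
    · left; simp [ha0]
    by_cases hb0 : b = 0
    · left; simp [hb0]
    obtain ⟨S, hS⟩ := ha.resolve_left ha0
    obtain ⟨S', hS'⟩ := hb.resolve_left hb0
    right
    refine ⟨max S S', fun s hs => ?_⟩
    rw [v_mul _ ha0 hb0]
    have h1 := hS s (le_of_max_le_left hs)
    have h2 := hS' s (le_of_max_le_right hs)
    omega

theorem mem_V {wt : ℕ → Str → ℕ} {r : K} :
    r ∈ V wt ↔ r = 0 ∨ ∃ S, ∀ s, S ≤ s → 0 ≤ v (wt s) r := Iff.rfl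

/-- elements whose value is eventually at least half of the weight of the empty string -/
def I (wt : ℕ → Str → ℕ) : Ideal (V wt) where
  carrier := {r | (r : K) = 0 ∨ ∃ S, ∀ s, S ≤ s → (wt s [] : ℤ) ≤ 2 * v (wt s) (r : K)}
  zero_mem' := Or.inl rfl
  add_mem' := by
    intro a b ha hb
    simp only [Set.mem_ofPred_eq, Subring.coe_add] at *
    by_cases hab : (a : K) + b = 0
    · exact Or.inl hab
    by_cases ha0 : (a : K) = 0
    · rw [ha0, zero_add]; exact hb
    by_cases hb0 : (b : K) = 0
    · rw [hb0, add_zero]; exact ha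
    obtain ⟨S, hS⟩ := ha.resolve_left ha0
    obtain ⟨S', hS'⟩ := hb.resolve_left hb0
    right
    refine ⟨max S S', fun s hs => ?_⟩
    have h1 := hS s (le_of_max_le_left hs)
    have h2 := hS' s (le_of_max_le_right hs)
    have h3 := v_add (wt s) ha0 hb0 hab
    omega
  smul_mem' := by
    intro a b hb
    simp only [Set.mem_ofPred_eq, smul_eq_mul, Subring.coe_mul] at *
    by_cases ha0 : (a : K) = 0
    · left; simp [ha0]
    by_cases hb0 : (b : K) = 0
    · left; simp [hb0]
    obtain ⟨S, hS⟩ := (mem_V.1 a.2).resolve_left ha0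
    obtain ⟨S', hS'⟩ := hb.resolve_left hb0
    right
    refine ⟨max S S', fun s hs => ?_⟩
    rw [v_mul _ ha0 hb0]
    have h1 := hS s (le_of_max_le_left hs)
    have h2 := hS' s (le_of_max_le_right hs)
    omega

theorem mem_I {wt : ℕ → Str → ℕ} {r : V wt} :
    r ∈ I wt ↔ (r : K) = 0 ∨ ∃ S, ∀ s, S ≤ s → (wt s [] : ℤ) ≤ 2 * v (wt s) (r : K) := Iff.rfl

end

end Pool.Agent.Helper298.Alg
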