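import Mathlib
import Pool.Agent.Helper298.Alg

set_option autoImplicit false

namespace Pool.Agent.Helper298.Code

open Pool.Agent.Helper298.Wt Pool.Agent.Helper298.Alg

/-- monomials as lists of variables, polynomials over the two element field as lists of
monomials -/
abbrev Mono := List Str
abbrev Poly := List Mono

noncomputable def mon (m : Mono) : A := (m.map MvPolynomial.X).prod
noncomputable def den (F : Poly) : A := (F.map mon).sum
noncomputable def cnt (m : Mono) : Str →₀ ℕ := Multiset.toFinsupp (m : Multiset Str)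

theorem mon_cons (q : Str) (m : Mono) : mon (q :: m) = MvPolynomial.X q * mon m := by simp [mon]

theorem mon_append (m m' : Mono) : mon (m ++ m') = mon m * mon m' := by simp [mon]

theorem cnt_cons (q : Str) (m : Mono) : cnt (q :: m) = Finsupp.single q 1 + cnt m := by
  unfold cnt
  rw [← Multiset.cons_coe, ← Multiset.singleton_add, map_add, Multiset.toFinsupp_singleton]

theorem mon_eq (m : Mono) : mon m = MvPolynomial.monomial (cnt m) 1 := by
  induction m with
  | nil => simp [mon, cnt]
  | cons q m ih =>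
    rw [mon_cons, ih, cnt_cons, MvPolynomial.X, MvPolynomial.monomial_mul, one_mul]

theorem cnt_eq_iff (m m' : Mono) : cnt m = cnt m' ↔ m.Perm m' := by
  unfold cnt
  rw [Multiset.toFinsupp.injective.eq_iff, Multiset.coe_eq_coe]

def wl (w : Str → ℕ) (m : Mono) : ℕ := (m.map w).sum

theorem wgt_cnt (w : Str → ℕ) (m : Mono) : wgt w (cnt m) = wl w m := by
  induction m with
  | nil => simp [wgt, cnt, wl]
  | cons q m ih =>
    rw [cnt_cons]
    unfold wgt at *
    rw [Finsupp.sum_add_index' (by simp) (by intro a b c; ring), ih]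
    simp [wl]

theorem den_nil : den [] = 0 := by simp [den]
theorem den_cons (m : Mono) (F : Poly) : den (m :: F) = mon m + den F := by simp [den]
theorem den_append (F G : Poly) : den (F ++ G) = den F + den G := by simp [den]

def pmul (F G : Poly) : Poly := F.flatMap (fun m => G.map (fun m' => m ++ m'))

theorem den_map_append (m : Mono) (G : Poly) : den (G.map (fun m' => m ++ m')) = mon m * den G := by
  induction G with
  | nil => simp [den]
  | cons m' G ih =>
    rw [List.map_cons, den_cons, ih, mon_append, den_cons]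
    ring

theorem den_pmul (F G : Poly) : den (pmul F G) = den F * den G := by
  induction F with
  | nil => simp [pmul, den]
  | cons m F ih =>
    have : pmul (m :: F) G = G.map (fun m' => m ++ m') ++ pmul F G := by simp [pmul]
    rw [this, den_append, ih, den_map_append, den_cons]
    ring

theorem den_surj (f : A) : ∃ F : Poly, den F = f := by
  induction f using MvPolynomial.induction_on with
  | C a =>
    have : a = 0 ∨ a = 1 := by revert a; decide
    rcases this with rfl | rfl
    · exact ⟨[], by simp [den]⟩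
    · exact ⟨[[]], by simp [den, mon]⟩
  | add p q hp hq =>
    obtain ⟨F, hF⟩ := hp
    obtain ⟨G, hG⟩ := hq
    exact ⟨F ++ G, by rw [den_append, hF, hG]⟩
  | mul_X p q hp =>
    obtain ⟨F, hF⟩ := hp
    refine ⟨F.map (fun m' => [q] ++ m'), ?_⟩
    rw [den_map_append, hF]
    simp [mon]
    ring

open Classical in
theorem coeff_den (F : Poly) (μ : Str →₀ ℕ) :
    MvPolynomial.coeff μ (den F) = ((F.countP (fun m => cnt m = μ) : ℕ) : ZMod 2) := by
  induction F with
  | nil => simp [den]
  | cons m F ih =>
    rw [den_cons, MvPolynomial.coeff_add, ih, mon_eq, MvPolynomial.coeff_monomial,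
      List.countP_cons]
    by_cases h : cnt m = μ
    · simp [h]; ring
    · simp [h]

/-- `m` occurs an odd number of times in `F`, up to order of factors -/
def oddp (F : Poly) (m : Mono) : Prop := F.countP (fun m' => m'.Perm m) % 2 = 1

instance (F : Poly) (m : Mono) : Decidable (oddp F m) := by unfold oddp; infer_instance

theorem oddp_iff (F : Poly) (m : Mono) : oddp F m ↔ MvPolynomial.coeff (cnt m) (den F) ≠ 0 := by
  classical
  rw [coeff_den]
  unfold oddp
  have : (fun m' : Mono => decide (cnt m' = cnt m)) = fun m' => decide (m'.Perm m) := by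
    funext m'
    rw [decide_eq_decide]
    exact cnt_eq_iff m' m
  rw [this, Ne, ZMod.natCast_eq_zero_iff]
  omega

theorem exists_mem_of_coeff {F : Poly} {μ : Str →₀ ℕ} (h : MvPolynomial.coeff μ (den F) ≠ 0) :
    ∃ m ∈ F, cnt m = μ ∧ oddp F m := by
  classical
  have h' := h
  rw [coeff_den] at h'
  have h0 : F.countP (fun m => cnt m = μ) ≠ 0 := by
    intro h0
    rw [h0] at h'
    simp at h'
  rw [Ne, List.countP_eq_zero] at h0
  push Not at h0
  obtain ⟨m, hm, hμ⟩ := h0
  have hμ' : cnt m = μ := by simpa using hμ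
  refine ⟨m, hm, hμ', ?_⟩
  rw [oddp_iff, hμ']
  exact h

def nz (F : Poly) : Prop := ∃ m ∈ F, oddp F m

theorem nz_iff (F : Poly) : nz F ↔ den F ≠ 0 := by
  constructor
  · rintro ⟨m, _, hm⟩ h
    rw [oddp_iff, h] at hm
    simp at hm
  · intro h
    obtain ⟨μ, hμ⟩ := MvPolynomial.ne_zero_iff.1 h
    obtain ⟨m, hm, _, ho⟩ := exists_mem_of_coeff hμ
    exact ⟨m, hm, ho⟩

/-- `a + b * order(G) ≤ b * order(F)` -/
def gen (w : Str → ℕ) (a b : ℕ) (F G : Poly) : Prop :=
  ∀ m ∈ F, oddp F m → ∃ m' ∈ G, oddp G m' ∧ a + b * wl w m' ≤ b * wl w m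

theorem gen_iff (w : Str → ℕ) (a b : ℕ) (F G : Poly) (hG : den G ≠ 0) :
    gen w a b F G ↔ den F = 0 ∨ a + b * o w (den G) ≤ b * o w (den F) := by
  constructor
  · intro h
    by_cases hF : den F = 0
    · exact Or.inl hF
    right
    obtain ⟨μ, hμ, ho⟩ := o_mem w hF
    obtain ⟨m, hm, hmc, hodd⟩ := exists_mem_of_coeff hμ
    obtain ⟨m', _, hodd', hle⟩ := h m hm hodd
    rw [ho, ← hmc, wgt_cnt]
    refine le_trans ?_ hle
    have := o_le w ((oddp_iff G m').1 hodd')
    rw [wgt_cnt] at this
    exact Nat.add_le_add_left (Nat.mul_le_mul_left _ this) _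
  · intro h m hm hodd
    rcases h with h | h
    · rw [oddp_iff, h] at hodd
      simp at hodd
    · obtain ⟨μ, hμ, ho⟩ := o_mem w hG
      obtain ⟨m', hm', hmc', hodd'⟩ := exists_mem_of_coeff hμ
      refine ⟨m', hm', hodd', ?_⟩
      rw [ho, ← hmc', wgt_cnt] at h
      refine le_trans h ?_
      have := o_le w ((oddp_iff F m).1 hodd)
      rw [wgt_cnt] at this
      exact Nat.mul_le_mul_left _ this

/-- size of a polynomial code -/
def sz (F : Poly) : ℕ := (F.map (fun m => (m.map (fun q => q.length + 1)).sum)).sum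

theorem length_le_sum (m : Mono) : m.length ≤ (m.map (fun q => q.length + 1)).sum := by
  induction m with
  | nil => simp
  | cons q m ih => simp; omega

theorem len_le_sum {m : Mono} {q : Str} (h : q ∈ m) :
    q.length ≤ (m.map (fun q => q.length + 1)).sum := by
  have := List.single_le_sum (l := m.map (fun q => q.length + 1)) (by simp) (q.length + 1)
    (List.mem_map.2 ⟨q, h, rfl⟩)
  omega

theorem sum_le_sz {F : Poly} {m : Mono} (h : m ∈ F) :
    (m.map (fun q => q.length + 1)).sum ≤ sz F :=
  List.single_le_sum (by simp) _ (List.mem_map.2 ⟨m, h, rfl⟩)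

theorem length_le_sz {F : Poly} {m : Mono} (h : m ∈ F) : m.length ≤ sz F :=
  (length_le_sum m).trans (sum_le_sz h)

theorem len_le_sz {F : Poly} {m : Mono} (h : m ∈ F) {q : Str} (hq : q ∈ m) : q.length ≤ sz F :=
  (len_le_sum hq).trans (sum_le_sz h)

variable {T : ℕ → Finset Str}

/-- difference of two monomials as a signed list -/
def dif (m m' : Mono) : List (ℤ × Str) := m.map (fun q => ((1 : ℤ), q)) ++ m'.map (fun q => (-1, q))

theorem W_dif (s : ℕ) (m m' : Mono) :
    W T s (dif m m') = (wl (w T s) m : ℤ) - wl (w T s) m' := by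
  unfold dif
  rw [W_append]
  have h1 : W T s (m.map (fun q => ((1 : ℤ), q))) = wl (w T s) m := by
    induction m with
    | nil => simp [W, wl]
    | cons q m ih =>
      simp only [List.map_cons, W_cons, ih, wl, List.sum_cons]
      push_cast; ring
  have h2 : W T s (m'.map (fun q => ((-1 : ℤ), q))) = -(wl (w T s) m' : ℤ) := by
    induction m' with
    | nil => simp [W, wl]
    | cons q m ih =>
      simp only [List.map_cons, W_cons, ih, wl, List.sum_cons]
      push_cast; ring
  rw [h1, h2]
  ring

theorem nrm_dif (m m' : Mono) : nrm (dif m m') = m.length + m'.length := by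
  unfold dif
  rw [nrm_append]
  congr 1
  · induction m with
    | nil => simp [nrm]
    | cons q m ih => simp only [List.map_cons, nrm_cons, ih, List.length_cons]; simp; ring
  · induction m' with
    | nil => simp [nrm]
    | cons q m ih => simp only [List.map_cons, nrm_cons, ih, List.length_cons]; simp; ring

theorem mem_dif {m m' : Mono} {p : ℤ × Str} (hp : p ∈ dif m m') : p.2 ∈ m ∨ p.2 ∈ m' := by
  unfold dif at hp
  rw [List.mem_append, List.mem_map, List.mem_map] at hp
  rcases hp with ⟨q, hq, rfl⟩ | ⟨q, hq, rfl⟩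
  · exact Or.inl hq
  · exact Or.inr hq

theorem argmin (hT : IsLev T) (F : Poly) (hF : den F ≠ 0) {s : ℕ} (hs : 2 * sz F ≤ s) :
    ∃ m ∈ F, ∀ j, s ≤ j → o (w T j) (den F) = wl (w T j) m := by
  obtain ⟨μ, hμ, ho⟩ := o_mem (w T s) hF
  obtain ⟨m, hm, hmc, _⟩ := exists_mem_of_coeff hμ
  refine ⟨m, hm, fun j hj => ?_⟩
  apply le_antisymm
  · have := o_le (w T j) hμ
    rwa [← hmc, wgt_cnt] at this
  · obtain ⟨μ', hμ', ho'⟩ := o_mem (w T j) hF
    obtain ⟨m', hm', hmc', _⟩ := exists_mem_of_coeff hμ'
    have h1 := o_le (w T s) hμ'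
    rw [ho, ← hmc, ← hmc', wgt_cnt, wgt_cnt] at h1
    have h2 := W_nonneg_stable hT hj (dif m' m) (by
        intro p hp
        rcases mem_dif hp with h | h
        · have := len_le_sz hm' h; omega
        · have := len_le_sz hm h; omega)
      (by rw [nrm_dif]; have := length_le_sz hm; have := length_le_sz hm'; omega)
      (by rw [W_dif]; omega)
    rw [W_dif] at h2
    rw [ho', ← hmc', wgt_cnt]
    omega

/-- the value of a coded fraction is a fixed signed sum of weights from an explicit stage on -/
theorem key (hT : IsLev T) (F G : Poly) (hF : den F ≠ 0) (hG : den G ≠ 0) {s : ℕ}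
    (hs : 2 * (sz F + sz G) ≤ s) :
    ∃ n : List (ℤ × Str), (∀ p ∈ n, p.2.length ≤ s) ∧ nrm n ≤ sz F + sz G ∧
      ∀ j, s ≤ j → v (w T j) (algebraMap A K (den F) / algebraMap A K (den G)) = W T j n := by
  obtain ⟨m, hm, hm'⟩ := argmin hT F hF (s := s) (by omega)
  obtain ⟨m1, hm1, hm1'⟩ := argmin hT G hG (s := s) (by omega)
  refine ⟨dif m m1, ?_, ?_, fun j hj => ?_⟩
  · intro p hp
    rcases mem_dif hp with h | h
    · have := len_le_sz hm h; omega
    · have := len_le_sz hm1 h; omega
  · rw [nrm_dif]
    have := length_le_sz hm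
    have := length_le_sz hm1
    omega
  · rw [v_div _ hF hG, W_dif, hm' j hj, hm1' j hj]

end Pool.Agent.Helper298.Code
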