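import Mathlib
import Pool.Agent.Helper298.Code

set_option autoImplicit false

namespace Pool.Agent.Helper298.Spec

open Pool.Agent.Helper298.Wt Pool.Agent.Helper298.Alg Pool.Agent.Helper298.Code

def restr (x : ℕ → ℕ) (n : ℕ) : Str := (List.range n).map x

theorem restr_length (x : ℕ → ℕ) (n : ℕ) : (restr x n).length = n := by simp [restr]

theorem restr_take (x : ℕ → ℕ) {s j : ℕ} (h : s ≤ j) : (restr x j).take s = restr x s := by
  unfold restr
  rw [← List.map_take, List.take_range, min_eq_left h]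

variable {T : ℕ → Finset Str}

theorem scale_W (s C : ℕ) (n : List (ℤ × Str)) :
    W T s (n.map (fun p => ((C : ℤ) * p.1, p.2))) = C * W T s n := by
  induction n with
  | nil => simp [W]
  | cons p n ih =>
    rw [List.map_cons, W_cons, W_cons, ih]
    ring

theorem scale_nrm (C : ℕ) (n : List (ℤ × Str)) :
    nrm (n.map (fun p => ((C : ℤ) * p.1, p.2))) = C * nrm n := by
  induction n with
  | nil => simp [nrm]
  | cons p n ih =>
    rw [List.map_cons, nrm_cons, nrm_cons, ih, Int.natAbs_mul]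
    simp
    ring

/-- nonzero elements of `K` are fractions of codes -/
theorem exists_code {r : K} (hr : r ≠ 0) : ∃ F G : Poly, den F ≠ 0 ∧ den G ≠ 0 ∧
    r = algebraMap A K (den F) / algebraMap A K (den G) := by
  obtain ⟨f, g, hf, hg, rfl⟩ := exists_rep hr
  obtain ⟨F, rfl⟩ := den_surj f
  obtain ⟨G, rfl⟩ := den_surj g
  exact ⟨F, G, hf, hg, rfl⟩

theorem classify (hT : IsLev T) {r : K} (hr : r ≠ 0) : ∃ S : ℕ,
    (∀ j, S ≤ j → v (w T j) r = 0) ∨
    (∃ q : Str, ∃ C : ℕ, 0 < C ∧ ∀ j, S ≤ j →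
      (w T j q : ℤ) ≤ C * v (w T j) r ∧ v (w T j) r ≤ C * (w T j q : ℤ)) ∨
    (∃ q : Str, ∃ C : ℕ, 0 < C ∧ ∀ j, S ≤ j →
      (w T j q : ℤ) ≤ C * -v (w T j) r ∧ -v (w T j) r ≤ C * (w T j q : ℤ)) := by
  obtain ⟨F, G, hF, hG, hrep⟩ := exists_code hr
  set S := 2 * (sz F + sz G) with hS
  obtain ⟨n, hn1, hn2, hn3⟩ := key hT F G hF hG (s := S) (le_refl _)
  refine ⟨S, ?_⟩
  rw [← hrep] at hn3
  rcases trich' hT S n hn1 (by omega) with h | ⟨q, C, hq, hc, h⟩ | ⟨q, C, hq, hc, h⟩
  · left
    intro j hj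
    rw [hn3 j hj, h j hj]
  · right; left
    refine ⟨q, C, ?_, fun j hj => by rw [hn3 j hj]; exact h j hj⟩
    rcases Nat.eq_zero_or_pos C with rfl | hC
    · have h1 := (h S (le_refl S)).1
      have h2 := w_pos hc
      push_cast at h1
      omega
    · exact hC
  · right; right
    refine ⟨q, C, ?_, fun j hj => by rw [hn3 j hj]; exact h j hj⟩
    rcases Nat.eq_zero_or_pos C with rfl | hC
    · have h1 := (h S (le_refl S)).1
      have h2 := w_pos hc
      push_cast at h1
      omega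
    · exact hC

theorem sign_ev (hT : IsLev T) {r : K} (hr : r ≠ 0) :
    (∃ S, ∀ j, S ≤ j → 0 ≤ v (w T j) r) ∨ (∃ S, ∀ j, S ≤ j → v (w T j) r ≤ 0) := by
  obtain ⟨S, h | ⟨q, C, hC, h⟩ | ⟨q, C, hC, h⟩⟩ := classify hT hr
  · left; exact ⟨S, fun j hj => (h j hj).ge⟩
  · left
    refine ⟨S, fun j hj => ?_⟩
    obtain ⟨h1, h2⟩ := h j hj
    have : (0 : ℤ) ≤ C * v (w T j) r := le_trans (by positivity) h1
    by_contra hcon
    push Not at hcon
    have hC' : (0 : ℤ) < C := by exact_mod_cast hC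
    nlinarith
  · right
    refine ⟨S, fun j hj => ?_⟩
    obtain ⟨h1, h2⟩ := h j hj
    have : (0 : ℤ) ≤ C * -v (w T j) r := le_trans (by positivity) h1
    by_contra hcon
    push Not at hcon
    have hC' : (0 : ℤ) < C := by exact_mod_cast hC
    nlinarith

theorem sign_ev2 (hT : IsLev T) {a b : K} (ha : a ≠ 0) (hb : b ≠ 0) :
    (∃ S, ∀ j, S ≤ j → v (w T j) a ≤ v (w T j) b) ∨
      (∃ S, ∀ j, S ≤ j → v (w T j) b ≤ v (w T j) a) := by
  rcases sign_ev hT (mul_ne_zero hb (inv_ne_zero ha)) with ⟨S, h⟩ | ⟨S, h⟩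
  · left
    refine ⟨S, fun j hj => ?_⟩
    have := h j hj
    rw [v_mul _ hb (inv_ne_zero ha), v_inv _ ha] at this
    omega
  · right
    refine ⟨S, fun j hj => ?_⟩
    have := h j hj
    rw [v_mul _ hb (inv_ne_zero ha), v_inv _ ha] at this
    omega

/-- the variable as an element of the ring `V` -/
noncomputable def tV (T : ℕ → Finset Str) (q : Str) : V (w T) :=
  ⟨t q, Or.inr ⟨0, fun s _ => by rw [v_t]; positivity⟩⟩

theorem tV_coe (q : Str) : ((tV T q : V (w T)) : K) = t q := rfl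

/-- the prime ideal of a path -/
def px (T : ℕ → Finset Str) (hT : IsLev T) (x : ℕ → ℕ) : Ideal (V (w T)) where
  carrier := {r | (r : K) = 0 ∨ ∃ m C S : ℕ, ∀ s, S ≤ s →
    (w T s (restr x m) : ℤ) ≤ C * v (w T s) (r : K)}
  zero_mem' := Or.inl rfl
  add_mem' := by
    intro a b ha hb
    simp only [Set.mem_ofPred_eq, Subring.coe_add] at *
    by_cases hab : (a : K) + b = 0
    · exact Or.inl hab
    by_cases ha0 : (a : K) = 0
    · rw [ha0, zero_add]; exact hb
    by_cases hb0 : (b : K) = 0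
    · rw [hb0, add_zero]; exact ha
    obtain ⟨m, C, S, hS⟩ := ha.resolve_left ha0
    obtain ⟨m', C', S', hS'⟩ := hb.resolve_left hb0
    obtain ⟨Sa, ha'⟩ := (mem_V.1 a.2).resolve_left ha0
    obtain ⟨Sb, hb'⟩ := (mem_V.1 b.2).resolve_left hb0
    right
    refine ⟨max m m', C + C', max (max S S') (max Sa Sb), fun s hs => ?_⟩
    have h1 := hS s (by omega)
    have h2 := hS' s (by omega)
    have h3 := v_add (w T s) ha0 hb0 hab
    have h4 := ha' s (by omega)
    have h5 := hb' s (by omega)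
    have h6 : w T s (restr x (max m m')) ≤ w T s (restr x m) := by
      apply w_anti
      rw [← restr_take x (le_max_left m m')]
      exact take_le _ _
    have h7 : w T s (restr x (max m m')) ≤ w T s (restr x m') := by
      apply w_anti
      rw [← restr_take x (le_max_right m m')]
      exact take_le _ _
    have h6' : (w T s (restr x (max m m')) : ℤ) ≤ w T s (restr x m) := by exact_mod_cast h6
    have h7' : (w T s (restr x (max m m')) : ℤ) ≤ w T s (restr x m') := by exact_mod_cast h7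
    push_cast
    rcases le_total (v (w T s) (a : K)) (v (w T s) (b : K)) with h | h
    · rw [min_eq_left h] at h3
      nlinarith
    · rw [min_eq_right h] at h3
      nlinarith
  smul_mem' := by
    intro a b hb
    simp only [Set.mem_ofPred_eq, smul_eq_mul, Subring.coe_mul] at *
    by_cases ha0 : (a : K) = 0
    · left; simp [ha0]
    by_cases hb0 : (b : K) = 0
    · left; simp [hb0]
    obtain ⟨S, hS⟩ := (mem_V.1 a.2).resolve_left ha0
    obtain ⟨m, C, S', hS'⟩ := hb.resolve_left hb0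
    right
    refine ⟨m, C, max S S', fun s hs => ?_⟩
    rw [v_mul _ ha0 hb0]
    have h1 := hS s (le_of_max_le_left hs)
    have h2 := hS' s (le_of_max_le_right hs)
    nlinarith

theorem mem_px {hT : IsLev T} {x : ℕ → ℕ} {r : V (w T)} :
    r ∈ px T hT x ↔ (r : K) = 0 ∨ ∃ m C S : ℕ, ∀ s, S ≤ s →
      (w T s (restr x m) : ℤ) ≤ C * v (w T s) (r : K) := Iff.rfl

/-- paths -/
def IsPath (T : ℕ → Finset Str) (x : ℕ → ℕ) : Prop := ∀ n, restr x n ∈ T n

theorem path_w_pos {x : ℕ → ℕ} (hx : IsPath T x) {m j : ℕ} (h : m ≤ j) :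
    0 < w T j (restr x m) := by
  apply w_pos
  have h1 := c_pos_of_mem (hx j)
  have h2 : c T j (restr x j) ≤ c T j (restr x m) := by
    apply c_anti
    rw [← restr_take x h]
    exact take_le _ _
  omega

theorem px_prime (hT : IsLev T) {x : ℕ → ℕ} (hx : IsPath T x) : (px T hT x).IsPrime := by
  refine ⟨?_, ?_⟩
  · intro h
    have h1 : (1 : V (w T)) ∈ px T hT x := by rw [h]; trivial
    rcases mem_px.1 h1 with h2 | ⟨m, C, S, h2⟩
    · exact one_ne_zero h2
    · have h3 := h2 (max S m) (le_max_left _ _)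
      have h4 := path_w_pos hx (le_max_right S m)
      rw [Subring.coe_one, v_one] at h3
      omega
  · intro a b hab
    by_cases ha0 : (a : K) = 0
    · left; exact Or.inl ha0
    by_cases hb0 : (b : K) = 0
    · right; exact Or.inl hb0
    rcases mem_px.1 hab with h2 | ⟨m, C, S, h2⟩
    · rw [Subring.coe_mul] at h2
      exact absurd h2 (mul_ne_zero ha0 hb0)
    · rcases sign_ev2 hT ha0 hb0 with ⟨S', h'⟩ | ⟨S', h'⟩
      · right
        refine Or.inr ⟨m, 2 * C, max S S', fun s hs => ?_⟩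
        have h3 := h2 s (by omega)
        have h4 := h' s (by omega)
        rw [Subring.coe_mul, v_mul _ ha0 hb0] at h3
        push_cast
        have : (0 : ℤ) ≤ C := by positivity
        nlinarith
      · left
        refine Or.inr ⟨m, 2 * C, max S S', fun s hs => ?_⟩
        have h3 := h2 s (by omega)
        have h4 := h' s (by omega)
        rw [Subring.coe_mul, v_mul _ ha0 hb0] at h3
        push_cast
        have : (0 : ℤ) ≤ C := by positivity
        nlinarith

theorem I_le_px (hT : IsLev T) (x : ℕ → ℕ) : I (w T) ≤ px T hT x := by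
  intro r hr
  rcases mem_I.1 hr with h | ⟨S, h⟩
  · exact Or.inl h
  · right
    refine ⟨0, 2, S, fun s hs => ?_⟩
    have := h s hs
    simpa [restr] using this

/-! ### general primes above `I` -/

section primes

variable (hT : IsLev T) (p : Ideal (V (w T))) (hp : p.IsPrime)

include hp in
theorem D1 {r r' : V (w T)} (hr0 : (r : K) ≠ 0) (hr0' : (r' : K) ≠ 0) (C : ℕ)
    (h : ∃ S, ∀ j, S ≤ j → v (w T j) (r : K) ≤ C * v (w T j) (r' : K)) (hr : r ∈ p) : r' ∈ p := by
  obtain ⟨S, h⟩ := h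
  have hm : (r' : K) ^ C * (r : K)⁻¹ ∈ V (w T) := by
    right
    refine ⟨S, fun j hj => ?_⟩
    rw [v_mul _ (pow_ne_zero _ hr0') (inv_ne_zero hr0), v_pow _ hr0', v_inv _ hr0]
    have := h j hj
    omega
  have h1 : r' ^ C = ⟨_, hm⟩ * r := by
    apply Subtype.ext
    rw [Subring.coe_mul, Subring.coe_pow]
    simp only
    field_simp
  apply hp.mem_of_pow_mem C
  rw [h1]
  exact p.mul_mem_left _ hr

include hT hp in
theorem D2 {s : ℕ} {q q' : Str} (hq : q.length ≤ s) (hq' : q'.length ≤ s)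
    (hc : c T s q ≤ c T s q') (h : tV T q ∈ p) : tV T q' ∈ p := by
  refine D1 p hp (t_ne_zero q) (t_ne_zero q') (Pi T s) ⟨s, fun j hj => ?_⟩ h
  rw [tV_coe, tV_coe, v_t, v_t]
  exact_mod_cast w_le_Pi_mul hT hj hq hq' hc

include hT hp in
theorem D3 {s : ℕ} {q : Str} (hq : q.length ≤ s) (hc : c T s q = 0) : tV T q ∉ p := by
  intro h
  have h1 : (1 : V (w T)) ∈ p := by
    refine D1 p hp (r' := 1) (t_ne_zero q) one_ne_zero 0 ⟨s, fun j hj => ?_⟩ h
    rw [tV_coe, v_t, w_zero hT hj hq hc]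
    simp
  exact hp.ne_top ((Ideal.eq_top_iff_one p).2 h1)

theorem D4 (hI : I (w T) ≤ p) : tV T [] ∈ p := by
  apply hI
  refine Or.inr ⟨0, fun s _ => ?_⟩
  rw [tV_coe, v_t]
  omega

/-- the least node of level `s` above `q` has the same rank -/
theorem exists_node {s : ℕ} {q : Str} (hc : 0 < c T s q) : ∃ ρ ∈ T s, q ≤ ρ ∧
    c T s ρ = c T s q := by
  unfold c at hc
  rw [Finset.card_pos] at hc
  set ρ := ((T s).filter (fun ρ => q ≤ ρ)).min' hc with hρ
  have hmem : ρ ∈ (T s).filter (fun ρ => q ≤ ρ) := Finset.min'_mem _ hc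
  rw [Finset.mem_filter] at hmem
  refine ⟨ρ, hmem.1, hmem.2, le_antisymm (c_anti s hmem.2) ?_⟩
  apply Finset.card_le_card
  intro τ hτ
  have h1 := Finset.min'_le _ τ hτ
  rw [Finset.mem_filter] at hτ ⊢
  exact ⟨hτ.1, h1⟩

include hT hp in
/-- every nonunit behaves like a node variable -/
theorem reduce {r : V (w T)} (hr0 : (r : K) ≠ 0) :
    (r ∉ p ∧ ∀ p' : Ideal (V (w T)), p'.IsPrime → r ∉ p') ∨
    ∃ q : Str, (r ∈ p ↔ tV T q ∈ p) ∧ ∀ p' : Ideal (V (w T)), p'.IsPrime →
      (r ∈ p' ↔ tV T q ∈ p') := by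
  have unit : (∃ S, ∀ j, S ≤ j → v (w T j) (r : K) ≤ 0) → ∀ p' : Ideal (V (w T)), p'.IsPrime →
      r ∉ p' := by
    rintro ⟨S, hS⟩ p' hp' h
    have h1 : (1 : V (w T)) ∈ p' := by
      refine D1 p' hp' (r' := 1) hr0 one_ne_zero 0 ⟨S, fun j hj => ?_⟩ h
      have := hS j hj
      simpa using this
    exact hp'.ne_top ((Ideal.eq_top_iff_one p').2 h1)
  obtain ⟨S, h | ⟨q, C, hC, h⟩ | ⟨q, C, hC, h⟩⟩ := classify hT hr0
  · left
    have := unit ⟨S, fun j hj => (h j hj).le⟩
    exact ⟨this p hp, this⟩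
  · right
    have key : ∀ p' : Ideal (V (w T)), p'.IsPrime → (r ∈ p' ↔ tV T q ∈ p') := by
      intro p' hp'
      constructor
      · intro hr
        refine D1 p' hp' hr0 (t_ne_zero q) C ⟨S, fun j hj => ?_⟩ hr
        rw [tV_coe, v_t]
        exact (h j hj).2
      · intro hr
        refine D1 p' hp' (t_ne_zero q) hr0 C ⟨S, fun j hj => ?_⟩ hr
        rw [tV_coe, v_t]
        exact (h j hj).1
    exact ⟨q, key p hp, key⟩
  · left
    obtain ⟨S', hS'⟩ := (mem_V.1 r.2).resolve_left hr0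
    have : ∃ S, ∀ j, S ≤ j → v (w T j) (r : K) ≤ 0 := by
      refine ⟨max S S', fun j hj => ?_⟩
      have h1 := (h j (by omega)).1
      have h2 := hS' j (by omega)
      have hC' : (0 : ℤ) < C := by exact_mod_cast hC
      have : (0 : ℤ) ≤ C * -v (w T j) (r : K) := le_trans (by positivity) h1
      nlinarith
    exact ⟨unit this p hp, unit this⟩

include hT hp in
theorem tV_mem_iff_node {s : ℕ} {q : Str} (hq : q.length ≤ s) :
    tV T q ∈ p ↔ ∃ ρ ∈ T s, q ≤ ρ ∧ c T s ρ = c T s q ∧ tV T ρ ∈ p := by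
  constructor
  · intro h
    have hc : 0 < c T s q := by
      rcases Nat.eq_zero_or_pos (c T s q) with h0 | h0
      · exact absurd h (D3 hT p hp hq h0)
      · exact h0
    obtain ⟨ρ, hρ, hqρ, hcρ⟩ := exists_node hc
    exact ⟨ρ, hρ, hqρ, hcρ, D2 hT p hp hq (le_of_eq (hT.len _ _ hρ)) (le_of_eq hcρ.symm) h⟩
  · rintro ⟨ρ, hρ, _, hcρ, h⟩
    exact D2 hT p hp (le_of_eq (hT.len _ _ hρ)) hq (le_of_eq hcρ) h

include hT hp in
theorem det_le (p' : Ideal (V (w T))) (hp' : p'.IsPrime)
    (h : ∀ s, ∀ ρ ∈ T s, tV T ρ ∈ p → tV T ρ ∈ p') : p ≤ p' := by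
  intro r hr
  by_cases hr0 : (r : K) = 0
  · have : r = 0 := Subtype.ext hr0
    rw [this]; exact p'.zero_mem
  rcases reduce hT p hp hr0 with h1 | ⟨q, h1, h2⟩
  · exact absurd hr h1.1
  · rw [h2 p' hp']
    rw [h1] at hr
    obtain ⟨ρ, hρ, hqρ, hcρ, h3⟩ := (tV_mem_iff_node hT p hp (le_refl q.length)).1 hr
    exact (tV_mem_iff_node hT p' hp' (le_refl q.length)).2 ⟨ρ, hρ, hqρ, hcρ, h _ ρ hρ h3⟩

end primes

theorem tV_mem_px (hT : IsLev T) {x : ℕ → ℕ} (hx : IsPath T x) {s : ℕ} {ρ : Str} (hρ : ρ ∈ T s) :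
    tV T ρ ∈ px T hT x ↔ ρ ≤ restr x s := by
  constructor
  · intro h
    by_contra hcon
    rw [not_le] at hcon
    rcases mem_px.1 h with h0 | ⟨m, C, S, h0⟩
    · exact t_ne_zero ρ h0
    · set j := max (max S m) (max s C) with hj
      have h1 := h0 j (by omega)
      rw [tV_coe, v_t] at h1
      have h2 : restr x j < ρ := by
        by_contra hc
        rw [not_lt] at hc
        have := le_take hc (le_of_eq (hT.len _ _ hρ))
        rw [restr_take x (by omega : s ≤ j)] at this
        exact absurd this (not_le.2 hcon)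
      have h3 := w_growth (le_refl j) (hx j) h2
      have h4 : w T j (restr x j) ≤ w T j (restr x m) := by
        apply w_anti
        rw [← restr_take x (by omega : m ≤ j)]
        exact take_le _ _
      have h5 := path_w_pos hx (le_refl j)
      have h6 : C < M T j := by
        unfold M
        have := Pi_pos T j
        have : j ≤ j * Pi T j := Nat.le_mul_of_pos_right _ this
        have : C ≤ j := by omega
        rw [mul_assoc]
        omega
      have h7 : w T j (restr x m) ≤ C * w T j ρ := by exact_mod_cast h1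
      rcases Nat.eq_zero_or_pos (w T j ρ) with h8 | h8
      · rw [h8] at h7
        omega
      · have : C * w T j ρ < M T j * w T j ρ := Nat.mul_lt_mul_of_pos_right h6 h8
        omega
  · intro h
    refine Or.inr ⟨s, 1, 0, fun j _ => ?_⟩
    rw [tV_coe, v_t]
    have := w_anti (T := T) j h
    push_cast
    rw [one_mul]
    exact_mod_cast this

theorem px_inj (hT : IsLev T) {x y : ℕ → ℕ} (hx : IsPath T x) (hy : IsPath T y)
    (h : px T hT x = px T hT y) : x = y := by
  have h1 : ∀ s, restr x s = restr y s := by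
    intro s
    apply le_antisymm
    · rw [← tV_mem_px hT hy (hx s), ← h, tV_mem_px hT hx (hx s)]
    · rw [← tV_mem_px hT hx (hy s), h, tV_mem_px hT hy (hy s)]
  funext n
  have h2 := h1 (n + 1)
  unfold restr at h2
  rw [List.range_succ, List.map_append, List.map_append] at h2
  have h3 := congrArg List.getLast? h2
  simpa using h3

theorem px_surj (hT : IsLev T) (hne : ∀ s, (T s).Nonempty) (p : Ideal (V (w T)))
    (hp : p.IsPrime) (hI : I (w T) ≤ p) : ∃ x, IsPath T x ∧ p = px T hT x := by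
  classical
  have hY : ∀ s, ((T s).filter (fun ρ => tV T ρ ∈ p)).Nonempty := by
    intro s
    have h1 := D4 p hI
    obtain ⟨ρ, hρ, _, _, h2⟩ := (tV_mem_iff_node hT p hp (s := s) (by simp)).1 h1
    exact ⟨ρ, by simp [hρ, h2]⟩
  let xs : ℕ → Str := fun s => ((T s).filter (fun ρ => tV T ρ ∈ p)).max' (hY s)
  have hxs : ∀ s, xs s ∈ T s ∧ tV T (xs s) ∈ p := by
    intro s
    have := Finset.max'_mem _ (hY s)
    rw [Finset.mem_filter] at this
    exact this
  have hmax : ∀ s, ∀ ρ ∈ T s, tV T ρ ∈ p → ρ ≤ xs s := by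
    intro s ρ hρ h
    exact Finset.le_max' _ ρ (by simp [hρ, h])
  have hdown : ∀ s, ∀ ρ ∈ T s, ρ ≤ xs s → tV T ρ ∈ p := by
    intro s ρ hρ h
    exact D2 hT p hp (le_of_eq (hT.len _ _ (hxs s).1)) (le_of_eq (hT.len _ _ hρ))
      (c_anti s h) (hxs s).2
  have hcoh : ∀ s, (xs (s + 1)).take s = xs s := by
    intro s
    have hmem := hT.pre s _ (hxs (s + 1)).1
    have hlen := hT.len _ _ hmem
    apply le_antisymm
    · apply hmax s _ hmem
      exact D2 hT p hp (s := s + 1) (le_of_eq (hT.len _ _ (hxs (s + 1)).1)) (by omega)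
        (c_anti _ (take_le _ _)) (hxs (s + 1)).2
    · by_contra hcon
      rw [not_le] at hcon
      have hlen' := hT.len _ _ (hxs s).1
      obtain ⟨τ, hτ, h1, _, h3⟩ := (tV_mem_iff_node hT p hp (s := s + 1) (q := xs s)
        (by omega)).1 (hxs s).2
      have h4 := hmax _ τ hτ h3
      have h5 : xs s ≤ xs (s + 1) := h1.trans h4
      have h6 := le_take h5 (le_of_eq hlen')
      exact absurd h6 (not_le.2 hcon)
  let x : ℕ → ℕ := fun n => (xs (n + 1)).getD n 0
  have hx : ∀ n, restr x n = xs n := by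
    intro n
    induction n with
    | zero =>
      have := hT.len _ _ (hxs 0).1
      rw [List.length_eq_zero_iff] at this
      rw [this]; rfl
    | succ n ih =>
      have h1 : restr x (n + 1) = restr x n ++ [x n] := by
        unfold restr
        rw [List.range_succ, List.map_append]; rfl
      rw [h1, ih, ← hcoh n]
      have h2 := hT.len _ _ (hxs (n + 1)).1
      have h3 : n < (xs (n + 1)).length := by omega
      have h4 : x n = (xs (n + 1))[n] := by
        simp only [x]
        rw [List.getD_eq_getElem _ _ h3]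
      rw [h4, List.take_concat_get' _ _ h3, List.take_of_length_le (by omega)]
  have hpath : IsPath T x := fun n => by rw [hx n]; exact (hxs n).1
  refine ⟨x, hpath, ?_⟩
  apply le_antisymm
  · apply det_le hT p hp _ (px_prime hT hpath)
    intro s ρ hρ h
    rw [tV_mem_px hT hpath hρ, hx]
    exact hmax s ρ hρ h
  · apply det_le hT _ (px_prime hT hpath) p hp
    intro s ρ hρ h
    rw [tV_mem_px hT hpath hρ, hx] at h
    exact hdown s ρ hρ h

end Pool.Agent.Helper298.Spec
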