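import Mathlib
import Pool.Agent.Helper298.Spec

set_option autoImplicit false

namespace Pool.Agent.Helper298.Eff

open Pool.Agent.Helper298.Wt Pool.Agent.Helper298.Alg Pool.Agent.Helper298.Code
open Pool.Agent.Helper298.Spec

variable {T : ℕ → Finset Str}

noncomputable def fr (F G : Poly) : K := algebraMap A K (den F) / algebraMap A K (den G)

theorem fr_ne_zero {F G : Poly} (hF : den F ≠ 0) (hG : den G ≠ 0) : fr F G ≠ 0 :=
  div_ne_zero (am_ne_zero hF) (am_ne_zero hG)

theorem fr_eq_zero {F G : Poly} (hF : den F = 0) : fr F G = 0 := by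
  unfold fr; rw [hF]; simp

theorem gen_iff_v (w : Str → ℕ) (a b : ℕ) (F G : Poly) (hG : den G ≠ 0) :
    gen w a b F G ↔ den F = 0 ∨ (a : ℤ) ≤ b * v w (fr F G) := by
  rw [gen_iff w a b F G hG]
  by_cases hF : den F = 0
  · simp [hF]
  · unfold fr
    rw [v_div w hF hG]
    simp only [hF, false_or]
    rw [mul_sub]
    constructor
    · intro h
      have : ((a + b * o w (den G) : ℕ) : ℤ) ≤ ((b * o w (den F) : ℕ) : ℤ) := by exact_mod_cast h
      push_cast at this
      linarith
    · intro h
      have : ((a + b * o w (den G) : ℕ) : ℤ) ≤ ((b * o w (den F) : ℕ) : ℤ) := by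
        push_cast
        linarith
      exact_mod_cast this

/-- a validity test at a large enough stage is correct -/
theorem valid_mem (hT : IsLev T) {F G : Poly} (hG : den G ≠ 0) {s : ℕ}
    (hs : 2 * (sz F + sz G) ≤ s) (h : gen (w T s) 0 1 F G) : fr F G ∈ V (w T) := by
  rw [gen_iff_v _ _ _ _ _ hG] at h
  rcases h with h | h
  · left; exact fr_eq_zero h
  · by_cases hF : den F = 0
    · left; exact fr_eq_zero hF
    right
    obtain ⟨n, hn1, hn2, hn3⟩ := key hT F G hF hG hs
    refine ⟨s, fun j hj => ?_⟩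
    have h1 := hn3 j hj
    have h2 := hn3 s (le_refl s)
    unfold fr at h ⊢
    rw [h1]
    apply W_nonneg_stable hT hj n hn1 (by omega)
    rw [← h2]
    simpa using h

theorem valid_mono (hT : IsLev T) {F G : Poly} (hG : den G ≠ 0) {s j : ℕ}
    (hs : 2 * (sz F + sz G) ≤ s) (hj : s ≤ j) (h : gen (w T s) 0 1 F G) :
    gen (w T j) 0 1 F G := by
  rw [gen_iff_v _ _ _ _ _ hG] at h ⊢
  rcases h with h | h
  · left; exact h
  · by_cases hF : den F = 0
    · left; exact hF
    right
    obtain ⟨n, hn1, hn2, hn3⟩ := key hT F G hF hG hs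
    have h1 := hn3 j hj
    have h2 := hn3 s (le_refl s)
    unfold fr at h ⊢
    rw [h1]
    have := W_nonneg_stable hT hj n hn1 (by omega) (by rw [← h2]; simpa using h)
    simpa using this

/-- every element of `V` passes the validity test from some stage on -/
theorem exists_valid {r : K} (hr : r ∈ V (w T)) : ∃ F G : Poly, ∃ s : ℕ, den G ≠ 0 ∧
    2 * (sz F + sz G) + 1 ≤ s ∧ gen (w T s) 0 1 F G ∧ r = fr F G := by
  by_cases hr0 : r = 0
  · refine ⟨[], [[]], 2 * (sz [] + sz [[]]) + 1, ?_, le_refl _, ?_, ?_⟩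
    · simp [den, mon]
    · intro m hm; simp at hm
    · rw [fr_eq_zero (by simp [den]), hr0]
  · obtain ⟨F, G, hF, hG, hrep⟩ := exists_code hr0
    obtain ⟨S, hS⟩ := (mem_V.1 hr).resolve_left hr0
    refine ⟨F, G, max S (2 * (sz F + sz G) + 1), hG, le_max_right _ _, ?_, hrep⟩
    rw [gen_iff_v _ _ _ _ _ hG]
    right
    have := hS _ (le_max_left S (2 * (sz F + sz G) + 1))
    rw [hrep] at this
    unfold fr
    simpa using this

theorem W_single_pair (s : ℕ) (a : ℤ) (q : Str) : W T s [(a, q)] = a * w T s q := by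
  simp [W]

theorem nrm_single_pair (a : ℤ) (q : Str) : nrm [(a, q)] = a.natAbs := by
  simp [nrm]

/-- `C * W n - w q` as a signed list -/
theorem W_thr (s C : ℕ) (n : List (ℤ × Str)) (q : Str) :
    W T s (n.map (fun p => ((C : ℤ) * p.1, p.2)) ++ [(-1, q)]) = C * W T s n - w T s q := by
  rw [W_append, scale_W, W_single_pair]; ring

theorem nrm_thr (C : ℕ) (n : List (ℤ × Str)) (q : Str) :
    nrm (n.map (fun p => ((C : ℤ) * p.1, p.2)) ++ [(-1, q)]) = C * nrm n + 1 := by
  rw [nrm_append, scale_nrm, nrm_single_pair]; simp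

theorem W_neg (s : ℕ) (n : List (ℤ × Str)) : W T s (n.map (fun p => (-p.1, p.2))) = -W T s n := by
  induction n with
  | nil => simp [W]
  | cons p n ih => rw [List.map_cons, W_cons, W_cons, ih]; ring

theorem nrm_neg (n : List (ℤ × Str)) : nrm (n.map (fun p => (-p.1, p.2))) = nrm n := by
  induction n with
  | nil => simp [nrm]
  | cons p n ih => rw [List.map_cons, nrm_cons, nrm_cons, ih]; simp

theorem W_nonpos_stable (hT : IsLev T) {s j : ℕ} (hj : s ≤ j) (n : List (ℤ × Str))
    (hl : ∀ p ∈ n, p.2.length ≤ s) (hn : nrm n ≤ s) (h : W T s n ≤ 0) : W T j n ≤ 0 := by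
  have := W_nonneg_stable hT hj (n.map (fun p => (-p.1, p.2))) (by
      intro p hp
      rw [List.mem_map] at hp
      obtain ⟨p', hp', rfl⟩ := hp
      exact hl p' hp') (by rw [nrm_neg]; exact hn) (by rw [W_neg]; omega)
  rw [W_neg] at this
  omega

/-- the equality test -/
theorem eq_test (hT : IsLev T) (hne : ∀ s, (T s).Nonempty) {F G : Poly} (hG : den G ≠ 0) {s : ℕ}
    (hs : 2 * (sz F + sz G) + 1 ≤ s) (hV : fr F G ∈ V (w T)) :
    (⟨fr F G, hV⟩ : V (w T)) ∈ I (w T) ↔ gen (w T s) (w T s []) 2 F G := by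
  rw [gen_iff_v _ _ _ _ _ hG, mem_I]
  by_cases hF : den F = 0
  · simp only [hF, true_or, iff_true]
    left; exact fr_eq_zero hF
  simp only [hF, false_or]
  rw [or_iff_right (fr_ne_zero hF hG)]
  obtain ⟨n, hn1, hn2, hn3⟩ := key hT F G hF hG (s := s) (by omega)
  set n' := n.map (fun p => (((2 : ℕ) : ℤ) * p.1, p.2)) ++ [(-1, [])] with hn'
  have hW : ∀ j, W T j n' = 2 * W T j n - w T j [] := fun j => by
    rw [hn', W_thr]; push_cast; ring
  have hN : nrm n' ≤ s := by
    rw [hn', nrm_thr]; omega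
  have hL : ∀ p ∈ n', p.2.length ≤ s := by
    intro p hp
    rw [hn', List.mem_append, List.mem_map] at hp
    rcases hp with ⟨p', hp', rfl⟩ | hp
    · exact hn1 p' hp'
    · rw [List.mem_singleton] at hp
      rw [hp]; simp
  constructor
  · rintro ⟨S, hS⟩
    by_contra hcon
    push Not at hcon
    have h1 := hn3 s (le_refl s)
    unfold fr at hcon hS
    rw [h1] at hcon
    have h2 : W T s n' ≤ 0 := by rw [hW]; push_cast at hcon; linarith
    have h3 := W_nonpos_stable hT (le_max_left s S) n' hL hN h2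
    have h4 := hS (max s S) (le_max_right _ _)
    rw [hn3 _ (le_max_left s S)] at h4
    rw [hW] at h3
    have h5 : (w T (max s S) [] : ℤ) = 2 * W T (max s S) n := by linarith
    obtain ⟨k, hk⟩ := w_nil_odd (hne (max s S))
    omega
  · intro h
    refine ⟨s, fun j hj => ?_⟩
    have h1 := hn3 s (le_refl s)
    have h2 := hn3 j hj
    unfold fr at h ⊢
    rw [h1] at h
    rw [h2]
    have h3 := W_nonneg_stable hT hj n' hL hN (by rw [hW]; push_cast at h; linarith)
    rw [hW] at h3
    linarith

/-- explicit constants for the membership test -/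
theorem mem_test (hT : IsLev T) {x : ℕ → ℕ} (hx : IsPath T x) {F G : Poly} (hG : den G ≠ 0)
    {s s' : ℕ} (hs : s = 2 * (sz F + sz G) + 1)
    (hs' : s' = s + 2 * Pi T s * (sz F + sz G) + 1) (hV : fr F G ∈ V (w T)) :
    (⟨fr F G, hV⟩ : V (w T)) ∈ px T hT x ↔
      gen (w T s') (w T s' (restr x s)) (2 * Pi T s) F G := by
  rw [gen_iff_v _ _ _ _ _ hG, mem_px]
  by_cases hF : den F = 0
  · simp only [hF, true_or, iff_true]
    left; exact fr_eq_zero hF
  simp only [hF, false_or]
  rw [or_iff_right (fr_ne_zero hF hG)]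
  have hfr0 := fr_ne_zero hF hG
  obtain ⟨n, hn1, hn2, hn3⟩ := key hT F G hF hG (s := s) (by omega)
  have hlen : (restr x s).length = s := restr_length x s
  constructor
  · intro hmem
    have hmem' : (⟨fr F G, hV⟩ : V (w T)) ∈ px T hT x := Or.inr hmem
    have hprime := px_prime hT hx
    obtain ⟨i, k, h1, h2⟩ := trich hT s n hn1 (by omega)
    have hv : ∀ j, s ≤ j → v (w T j) (fr F G) = W T j n := hn3
    have hOm : ∀ j, s ≤ j → (0 : ℤ) ≤ (Om T s j i : ℤ) := fun j _ => by positivity
    -- exclude values that are eventually nonpositive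
    have hnp : ¬ ∃ S, ∀ j, S ≤ j → v (w T j) (fr F G) ≤ 0 := by
      rintro ⟨S, hS⟩
      have h3 : (1 : V (w T)) ∈ px T hT x := by
        refine D1 _ hprime (r := ⟨fr F G, hV⟩) (r' := 1) hfr0 one_ne_zero 0 ⟨S, fun j hj => ?_⟩
          hmem'
        have := hS j hj
        simpa using this
      exact hprime.ne_top ((Ideal.eq_top_iff_one _).2 h3)
    rcases h1 with ⟨rfl, rfl⟩ | ⟨hk, hi, p0, hp0, hpi⟩
    · exfalso
      apply hnp
      refine ⟨s, fun j hj => ?_⟩
      rw [hv j hj]
      have hj' := h2 j hj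
      rw [Om_zero hT hj] at hj'
      have := le_abs_self (W T j n - 0 * ((0 : ℕ) : ℤ))
      push_cast at *
      linarith
    · have hkpos : 0 < k := by
        by_contra hcon
        apply hnp
        refine ⟨s, fun j hj => ?_⟩
        rw [hv j hj]
        have hj' := h2 j hj
        have h3 := le_abs_self (W T j n - k * (Om T s j i : ℤ))
        have h4 := hOm j hj
        have h5 : k ≤ -1 := by omega
        nlinarith
      have hlow : ∀ j, s ≤ j → (Om T s j i : ℤ) ≤ 2 * W T j n := by
        intro j hj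
        have hj' := h2 j hj
        have h3 := neg_le_abs (W T j n - k * (Om T s j i : ℤ))
        have h4 := hOm j hj
        nlinarith
      have hhigh : ∀ j, s ≤ j → 2 * W T j n ≤ (2 * k + 1) * (Om T s j i : ℤ) := by
        intro j hj
        have hj' := h2 j hj
        have h3 := le_abs_self (W T j n - k * (Om T s j i : ℤ))
        have h4 := hOm j hj
        nlinarith
      -- the variable of the dominating string lies in the prime
      have htq : tV T p0.2 ∈ px T hT x := by
        refine D1 _ hprime (r := ⟨fr F G, hV⟩) hfr0 (t_ne_zero p0.2) (2 * k.natAbs + 1)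
          ⟨s, fun j hj => ?_⟩ hmem'
        simp only [tV_coe, v_t]
        rw [hv j hj, w_eq hT hj (hn1 p0 hp0), hpi]
        have h3 := hhigh j hj
        have h4 := hlow j hj
        have h5 : (1 : ℤ) ≤ (A T s p0.2 : ℤ) := by exact_mod_cast A_pos s p0.2
        have h6 := hOm j hj
        push_cast
        rw [abs_of_pos hkpos]
        have h7 : (2 * k + 1) * (Om T s j i : ℤ) ≤
            (2 * k + 1) * ((A T s p0.2 : ℤ) * (Om T s j i : ℤ)) := by
          apply mul_le_mul_of_nonneg_left _ (by omega)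
          nlinarith
        nlinarith
      obtain ⟨ρ, hρ, _, hcρ, hρm⟩ := (tV_mem_iff_node hT _ hprime (hn1 p0 hp0)).1 htq
      rw [tV_mem_px hT hx hρ] at hρm
      have hc : c T s (restr x s) ≤ i := by
        have := c_anti (T := T) s hρm
        omega
      have hs1 : s ≤ s' := by omega
      rw [hv s' hs1, w_eq hT hs1 (le_of_eq hlen)]
      have h3 := hlow s' hs1
      have h4 : (Om T s s' (c T s (restr x s)) : ℤ) ≤ (Om T s s' i : ℤ) := by
        exact_mod_cast Om_mono hc
      have h5 : (A T s (restr x s) : ℤ) ≤ (Pi T s : ℤ) := by exact_mod_cast A_le s _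
      have h6 : (0 : ℤ) ≤ (Pi T s : ℤ) := by positivity
      have h7 : (0 : ℤ) ≤ (Om T s s' (c T s (restr x s)) : ℤ) := by positivity
      push_cast
      calc (A T s (restr x s) : ℤ) * (Om T s s' (c T s (restr x s)) : ℤ)
          ≤ (Pi T s : ℤ) * (Om T s s' i : ℤ) := mul_le_mul h5 h4 h7 h6
        _ ≤ (Pi T s : ℤ) * (2 * W T s' n) := mul_le_mul_of_nonneg_left h3 h6
        _ = 2 * (Pi T s : ℤ) * W T s' n := by ring
  · intro h
    refine ⟨s, 2 * Pi T s, s', fun j hj => ?_⟩
    have hs1 : s ≤ s' := by omega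
    have h1 := hn3 s' hs1
    have h2 := hn3 j (hs1.trans hj)
    unfold fr at h ⊢
    rw [h1] at h
    rw [h2]
    set n' := n.map (fun p => (((2 * Pi T s : ℕ) : ℤ) * p.1, p.2)) ++ [(-1, restr x s)] with hn'
    have hW : ∀ j, W T j n' = (2 * Pi T s : ℕ) * W T j n - w T j (restr x s) := fun j => by
      rw [hn', W_thr]
    have hN : nrm n' ≤ s' := by
      rw [hn', nrm_thr, hs']
      have := Nat.mul_le_mul_left (2 * Pi T s) hn2
      omega
    have hL : ∀ p ∈ n', p.2.length ≤ s' := by
      intro p hp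
      rw [hn', List.mem_append, List.mem_map] at hp
      rcases hp with ⟨p', hp', rfl⟩ | hp
      · exact (hn1 p' hp').trans hs1
      · rw [List.mem_singleton] at hp
        rw [hp]; simp only; omega
    have h3 := W_nonneg_stable hT hj n' hL hN (by rw [hW]; linarith)
    rw [hW] at h3
    linarith

end Pool.Agent.Helper298.Eff
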