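import Mathlib
import Pool.Agent.Helper298.Code

set_option autoImplicit false

namespace Pool.Agent.Helper298.PR

open Pool.Agent.Helper298.Wt Pool.Agent.Helper298.Code
open Primrec

/-! ### lexicographic order -/

theorem lt_iff (a b : Str) : a < b ↔ ∃ i < b.length, a.take i = b.take i ∧
    (i = a.length ∨ (i < a.length ∧ a.getD i 0 < b.getD i 0)) := by
  rw [List.lt_iff_exists]
  constructor
  · rintro (⟨h1, h2⟩ | ⟨i, h1, h2, h3, h4⟩)
    · refine ⟨a.length, h2, ?_, Or.inl rfl⟩
      rw [List.take_length]; exact h1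
    · refine ⟨i, h2, ?_, Or.inr ⟨h1, ?_⟩⟩
      · apply List.ext_getElem
        · simp; omega
        · intro j hj1 hj2
          have hj : j < i := by simp at hj1; omega
          simp only [List.getElem_take]
          exact h3 j hj
      · rw [List.getD_eq_getElem _ _ h1, List.getD_eq_getElem _ _ h2]
        exact h4
  · rintro ⟨i, h1, h2, h3 | ⟨h3, h4⟩⟩
    · left
      subst h3
      rw [List.take_length] at h2
      exact ⟨h2, h1⟩
    · right
      refine ⟨i, h3, h1, ?_, ?_⟩
      · intro j hj
        have h5 : (a.take i)[j]? = (b.take i)[j]? := by rw [h2]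
        rw [List.getElem?_take_of_lt hj, List.getElem?_take_of_lt hj,
          List.getElem?_eq_getElem (by omega), List.getElem?_eq_getElem (by omega)] at h5
        exact Option.some.inj h5
      · rw [List.getD_eq_getElem _ _ h3, List.getD_eq_getElem _ _ h1] at h4
        exact h4

theorem lt_prim : PrimrecRel (fun a b : Str => a < b) := by
  have h1 : PrimrecRel (fun (i : ℕ) (p : Str × Str) => p.1.take i = p.2.take i ∧
      (i = p.1.length ∨ (i < p.1.length ∧ p.1.getD i 0 < p.2.getD i 0))) := by
    apply PrimrecPred.and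
    · exact Primrec.eq.comp (list_take.comp fst (fst.comp snd)) (list_take.comp fst (snd.comp snd))
    · apply PrimrecPred.or
      · exact Primrec.eq.comp fst (list_length.comp (fst.comp snd))
      · apply PrimrecPred.and
        · exact nat_lt.comp fst (list_length.comp (fst.comp snd))
        · exact nat_lt.comp ((list_getD 0).comp (fst.comp snd) fst)
            ((list_getD 0).comp (snd.comp snd) fst)
  have h2 := h1.exists_mem_list
  have h3 : PrimrecPred (fun p : Str × Str => ∃ i ∈ List.range p.2.length,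
      p.1.take i = p.2.take i ∧
      (i = p.1.length ∨ (i < p.1.length ∧ p.1.getD i 0 < p.2.getD i 0))) :=
    h2.comp (list_range.comp (list_length.comp snd)) Primrec.id
  refine PrimrecPred.of_eq h3 fun p => ?_
  change _ ↔ p.1 < p.2
  rw [lt_iff]
  simp

theorem le_prim : PrimrecRel (fun a b : Str => a ≤ b) := by
  have : PrimrecPred (fun p : Str × Str => ¬ p.2 < p.1) := (lt_prim.comp snd fst).not
  exact PrimrecPred.of_eq this fun p => not_lt

/-! ### arithmetic helpers -/

theorem pow_prim : Primrec₂ (fun a b : ℕ => a ^ b) :=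
  Primrec₂.unpaired'.1 Nat.Primrec.pow

theorem sum_prim : Primrec (fun l : List ℕ => l.sum) := by
  have : Primrec (fun l : List ℕ => l.foldr (fun a b => a + b) 0) :=
    list_foldr Primrec.id (const 0)
      (nat_add.comp (fst.comp snd) (snd.comp snd)).to₂
  exact this.of_eq fun l => by rw [List.sum_eq_foldr]

/-! ### counting -/

theorem count_prim : Primrec₂ (fun (l : Mono) (a : Str) => l.count a) := by
  have h : Primrec₂ (fun (l : Mono) (a : Str) => (l.filter (fun b => b = a)).length) :=
    list_length.comp₂ (PrimrecRel.listFilter Primrec.eq)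
  refine h.of_eq fun l a => ?_
  rw [List.count, List.countP_eq_length_filter]
  congr 1
  apply List.filter_congr
  intro b _
  rw [Bool.eq_iff_iff]
  simp

theorem perm_prim : PrimrecRel (fun a b : Mono => a.Perm b) := by
  have h1 : PrimrecRel (fun (q : Str) (p : Mono × Mono) => p.1.count q = p.2.count q) :=
    Primrec.eq.comp (count_prim.comp (fst.comp snd) fst) (count_prim.comp (snd.comp snd) fst)
  have h2 : PrimrecPred (fun p : Mono × Mono => ∀ q ∈ p.1 ++ p.2, p.1.count q = p.2.count q) :=
    h1.forall_mem_list.comp (list_append.comp fst snd) Primrec.id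
  refine PrimrecPred.of_eq h2 fun p => ?_
  change _ ↔ p.1.Perm p.2
  rw [List.perm_iff_count]
  constructor
  · intro h q
    by_cases hq : q ∈ p.1 ++ p.2
    · exact h q hq
    · rw [List.mem_append, not_or] at hq
      rw [List.count_eq_zero_of_not_mem hq.1, List.count_eq_zero_of_not_mem hq.2]
  · intro h q _
    exact h q

theorem oddp_prim : PrimrecRel oddp := by
  have h1 : Primrec₂ (fun (F : Poly) (m : Mono) => (F.filter (fun m' => m'.Perm m)).length) :=
    list_length.comp₂ (PrimrecRel.listFilter perm_prim)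
  have h2 : PrimrecRel (fun (F : Poly) (m : Mono) =>
      (F.filter (fun m' => m'.Perm m)).length % 2 = 1) :=
    Primrec.eq.comp (nat_mod.comp h1 (const 2)) (const 1)
  refine h2.of_eq fun F m => ?_
  unfold oddp
  rw [List.countP_eq_length_filter]

theorem nz_prim : PrimrecPred nz := by
  have h1 : PrimrecRel (fun (m : Mono) (F : Poly) => oddp F m) := oddp_prim.swap
  exact h1.exists_mem_list.comp Primrec.id Primrec.id

/-! ### weights from the list of levels -/

/-- one step of the weight computation -/
def stp (q : Str) (st : ℕ × ℕ × ℕ × ℕ) (lv : List Str) : ℕ × ℕ × ℕ × ℕ :=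
  (st.1 + 1, st.2.1 * (2 * st.1 * st.2.1 + 1) ^ lv.length,
    st.2.2.1 * (2 * st.1 * st.2.1 + 1) ^ (lv.filter (fun ρ => q ≤ ρ)).length,
    (lv.filter (fun ρ => q ≤ ρ)).length)

def run (L : List (List Str)) (q : Str) : ℕ × ℕ × ℕ × ℕ := L.foldl (stp q) (0, 1, 1, 0)

def wL (L : List (List Str)) (q : Str) : ℕ :=
  if (run L q).2.2.2 = 0 then 0 else (run L q).2.2.1

def piL (L : List (List Str)) : ℕ := (run L []).2.1

theorem cc_prim : Primrec₂ (fun (lv : List Str) (q : Str) =>
    (lv.filter (fun ρ => q ≤ ρ)).length) :=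
  list_length.comp₂ (PrimrecRel.listFilter (R := fun ρ q => q ≤ ρ) le_prim.swap)

theorem stp_prim : Primrec (fun p : Str × (ℕ × ℕ × ℕ × ℕ) × List Str => stp p.1 p.2.1 p.2.2) := by
  unfold stp
  have st : Primrec (fun p : Str × (ℕ × ℕ × ℕ × ℕ) × List Str => p.2.1) := fst.comp snd
  have lv : Primrec (fun p : Str × (ℕ × ℕ × ℕ × ℕ) × List Str => p.2.2) := snd.comp snd
  have l : Primrec (fun p : Str × (ℕ × ℕ × ℕ × ℕ) × List Str => p.2.1.1) := fst.comp st
  have pi : Primrec (fun p : Str × (ℕ × ℕ × ℕ × ℕ) × List Str => p.2.1.2.1) :=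
    fst.comp (snd.comp st)
  have ac : Primrec (fun p : Str × (ℕ × ℕ × ℕ × ℕ) × List Str => p.2.1.2.2.1) :=
    fst.comp (snd.comp (snd.comp st))
  have mm : Primrec (fun p : Str × (ℕ × ℕ × ℕ × ℕ) × List Str => 2 * p.2.1.1 * p.2.1.2.1 + 1) :=
    succ.comp (nat_mul.comp (nat_mul.comp (const 2) l) pi)
  have ct : Primrec (fun p : Str × (ℕ × ℕ × ℕ × ℕ) × List Str =>
      (p.2.2.filter (fun ρ => p.1 ≤ ρ)).length) := cc_prim.comp lv fst
  exact (succ.comp l).pair ((nat_mul.comp pi (pow_prim.comp mm (list_length.comp lv))).pair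
    ((nat_mul.comp ac (pow_prim.comp mm ct)).pair ct))

theorem run_prim : Primrec₂ run := by
  unfold run
  have h : Primrec₂ (fun (p : List (List Str) × Str) (x : (ℕ × ℕ × ℕ × ℕ) × List Str) =>
      stp p.2 x.1 x.2) :=
    stp_prim.comp ((snd.comp fst).pair ((fst.comp snd).pair (snd.comp snd)))
  exact list_foldl fst (const _) h

theorem wL_prim : Primrec₂ wL := by
  unfold wL
  have h1 : Primrec (fun p : List (List Str) × Str => (run p.1 p.2).2.2.2) :=
    snd.comp (snd.comp (snd.comp run_prim))
  have h2 : Primrec (fun p : List (List Str) × Str => (run p.1 p.2).2.2.1) :=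
    fst.comp (snd.comp (snd.comp run_prim))
  exact Primrec.ite (Primrec.eq.comp h1 (const 0)) (const 0) h2

theorem piL_prim : Primrec piL := by
  unfold piL
  exact fst.comp (snd.comp (run_prim.comp Primrec.id (const [])))

theorem wl_prim : Primrec₂ (fun (L : List (List Str)) (m : Mono) => wl (wL L) m) := by
  unfold wl
  apply sum_prim.comp
  exact list_map snd ((wL_prim.comp (fst.comp fst) snd).to₂)

theorem sz_prim : Primrec sz := by
  unfold sz
  apply sum_prim.comp
  apply list_map Primrec.id
  change Primrec (fun p : Poly × Mono => (p.2.map (fun q => q.length + 1)).sum)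
  apply sum_prim.comp
  apply list_map snd
  exact (succ.comp (list_length.comp snd)).to₂

/-- argument type of the general test -/
abbrev Arg := List (List Str) × (ℕ × ℕ) × (Poly × Poly)

theorem gen_prim : PrimrecPred (fun p : Arg => gen (wL p.1) p.2.1.1 p.2.1.2 p.2.2.1 p.2.2.2) := by
  -- inner relation on `m'`
  have hin : PrimrecRel (fun (m' : Mono) (p : Mono × Arg) =>
      oddp p.2.2.2.2 m' ∧ p.2.2.1.1 + p.2.2.1.2 * wl (wL p.2.1) m' ≤
        p.2.2.1.2 * wl (wL p.2.1) p.1) := by
    have arg : Primrec (fun x : Mono × Mono × Arg => x.2.2) := snd.comp snd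
    have aL : Primrec (fun x : Mono × Mono × Arg => x.2.2.1) := fst.comp arg
    have aab : Primrec (fun x : Mono × Mono × Arg => x.2.2.2.1) := fst.comp (snd.comp arg)
    have aa : Primrec (fun x : Mono × Mono × Arg => x.2.2.2.1.1) := fst.comp aab
    have ab : Primrec (fun x : Mono × Mono × Arg => x.2.2.2.1.2) := snd.comp aab
    have aG : Primrec (fun x : Mono × Mono × Arg => x.2.2.2.2.2) :=
      snd.comp (snd.comp (snd.comp arg))
    apply PrimrecPred.and
    · exact oddp_prim.comp aG fst
    · exact nat_le.comp (nat_add.comp aa (nat_mul.comp ab (wl_prim.comp aL fst)))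
        (nat_mul.comp ab (wl_prim.comp aL (fst.comp snd)))
  have h1 : PrimrecRel (fun (m : Mono) (p : Arg) => ¬ oddp p.2.2.1 m ∨
      ∃ m' ∈ p.2.2.2, oddp p.2.2.2 m' ∧ p.2.1.1 + p.2.1.2 * wl (wL p.1) m' ≤
        p.2.1.2 * wl (wL p.1) m) := by
    apply PrimrecPred.or
    · apply PrimrecPred.not
      exact oddp_prim.comp (fst.comp (snd.comp (snd.comp snd))) fst
    · exact hin.exists_mem_list.comp (snd.comp (snd.comp (snd.comp snd))) Primrec.id
  have h2 := h1.forall_mem_list.comp (f := fun p : Arg => p.2.2.1) (g := fun p : Arg => p)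
    (fst.comp (snd.comp snd)) Primrec.id
  refine PrimrecPred.of_eq h2 fun p => ?_
  unfold gen
  constructor
  · intro h m hm ho
    exact (h m hm).resolve_left (fun h' => h' ho)
  · intro h m hm
    by_cases ho : oddp p.2.2.1 m
    · exact Or.inr (h m hm ho)
    · exact Or.inl ho

theorem pmul_prim : Primrec₂ pmul := by
  unfold pmul
  apply list_flatMap fst
  change Primrec (fun p : (Poly × Poly) × Mono => p.1.2.map (fun m' => p.2 ++ m'))
  apply list_map (snd.comp fst)
  exact (list_append.comp (snd.comp fst) snd).to₂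

end Pool.Agent.Helper298.PR
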