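import Mathlib
import Pool.Agent.Helper298.PR
import Pool.Agent.Helper298.Eff

set_option autoImplicit false

namespace Pool.Agent.Helper298.Lev

open Pool.Agent.Helper298.Wt Pool.Agent.Helper298.Code Pool.Agent.Helper298.PR
open Pool.Agent.Helper298.Spec

/-! ### computable list operations -/

section comp

variable {α β σ : Type*} [Primcodable α] [Primcodable β] [Primcodable σ]

theorem comp_foldl {f : α → List β} {g : α → σ} {h : α → σ × β → σ} (hf : Computable f)
    (hg : Computable g) (hh : Computable₂ h) :
    Computable fun a => (f a).foldl (fun s b => h a (s, b)) (g a) := by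
  have h1 : Computable₂ (fun (a : α) (p : ℕ × σ) =>
      (Option.casesOn ((f a)[p.1]?) p.2 (fun b => h a (p.2, b)) : σ)) := by
    apply Computable.option_casesOn
    · exact Computable.list_getElem?.comp (hf.comp Computable.fst)
        (Computable.fst.comp Computable.snd)
    · exact Computable.snd.comp Computable.snd
    · exact (hh.comp (Computable.fst.comp Computable.fst)
        ((Computable.snd.comp (Computable.snd.comp Computable.fst)).pair Computable.snd)).to₂
  have h2 := Computable.nat_rec (Computable.list_length.comp hf) hg h1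
  refine h2.of_eq fun a => ?_
  have key : ∀ n, (Nat.rec (g a) (fun y IH =>
      (Option.casesOn ((f a)[y]?) IH (fun b => h a (IH, b)) : σ)) n : σ) =
      ((f a).take n).foldl (fun s b => h a (s, b)) (g a) := by
    intro n
    induction n with
    | zero => simp
    | succ n ih =>
      have e : (Nat.rec (g a) (fun y IH =>
        (Option.casesOn ((f a)[y]?) IH (fun b => h a (IH, b)) : σ)) (n + 1) : σ) =
        (Option.casesOn ((f a)[n]?) (Nat.rec (g a) (fun y IH =>
          (Option.casesOn ((f a)[y]?) IH (fun b => h a (IH, b)) : σ)) n : σ)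
          (fun b => h a ((Nat.rec (g a) (fun y IH =>
          (Option.casesOn ((f a)[y]?) IH (fun b => h a (IH, b)) : σ)) n : σ), b)) : σ) := rfl
      rw [e, ih, List.take_add_one]
      cases h3 : (f a)[n]? with
      | none => simp
      | some b => simp [List.foldl_append]
  have := key (f a).length
  rw [List.take_length] at this
  exact this

theorem comp_flatMap {f : α → List β} {k : α → β → List σ} (hf : Computable f)
    (hk : Computable₂ k) : Computable fun a => (f a).flatMap (k a) := by
  have h := comp_foldl (σ := List σ) (g := fun _ => []) (h := fun a p => p.1 ++ k a p.2) hf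
    (Computable.const _) ((Computable.list_append.comp (Computable.fst.comp Computable.snd)
      (hk.comp Computable.fst (Computable.snd.comp Computable.snd))).to₂)
  refine h.of_eq fun a => ?_
  have key : ∀ (l : List β) (acc : List σ), l.foldl (fun s b => s ++ k a b) acc =
      acc ++ l.flatMap (k a) := by
    intro l
    induction l with
    | nil => simp
    | cons b l ih => intro acc; rw [List.foldl_cons, ih, List.flatMap_cons, List.append_assoc]
  have := key (f a) []
  simpa using this

theorem comp_map {f : α → List β} {k : α → β → σ} (hf : Computable f)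
    (hk : Computable₂ k) : Computable fun a => (f a).map (k a) := by
  have h := comp_flatMap (k := fun a b => [k a b]) hf
    ((Computable.list_cons.comp hk (Computable.const [])).to₂)
  refine h.of_eq fun a => ?_
  induction (f a) with
  | nil => simp
  | cons b l ih => rw [List.flatMap_cons, ih]; simp

end comp

/-! ### levels of a tree -/

variable (Tr : Set Str) [DecidablePred (· ∈ Tr)] (g : Str → ℕ)

def child (σ : Str) : List Str :=
  (List.range (g σ)).flatMap (fun i => if σ ++ [i] ∈ Tr then [σ ++ [i]] else [])

def lev : ℕ → List Str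
  | 0 => if ([] : Str) ∈ Tr then [[]] else []
  | s + 1 => (lev s).flatMap (child Tr g)

theorem comp_child (hTr : ComputablePred (· ∈ Tr)) (hg : Computable g) :
    Computable (child Tr g) := by
  unfold child
  apply comp_flatMap (Primrec.list_range.to_comp.comp hg)
  have h1 : Computable (fun p : Str × ℕ => p.1 ++ [p.2]) :=
    Primrec.list_concat.to_comp
  have h2 : Computable (fun p : Str × ℕ => decide (p.1 ++ [p.2] ∈ Tr)) := by
    have := hTr.decide.comp h1
    exact this
  have h3 := Computable.cond h2 (Computable.list_cons.comp h1 (Computable.const []))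
    (Computable.const [])
  refine Computable.of_eq h3 fun p => ?_
  by_cases h : p.1 ++ [p.2] ∈ Tr <;> simp [h]

theorem comp_lev (hTr : ComputablePred (· ∈ Tr)) (hg : Computable g) :
    Computable (lev Tr g) := by
  have h1 : Computable₂ (fun (_ : ℕ) (p : ℕ × List Str) => p.2.flatMap (child Tr g)) :=
    comp_flatMap (Computable.snd.comp Computable.snd)
      ((comp_child Tr g hTr hg).comp Computable.snd).to₂
  have h2 := Computable.nat_rec (f := fun n : ℕ => n)
    (g := fun _ : ℕ => if ([] : Str) ∈ Tr then [[]] else []) Computable.id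
    (Computable.const _) h1
  refine h2.of_eq fun n => ?_
  induction n with
  | zero => rfl
  | succ n ih => simp only [lev] at *; rw [ih]

def Ls (s : ℕ) : List (List Str) := (List.range s).map (lev Tr g)

theorem comp_Ls (hTr : ComputablePred (· ∈ Tr)) (hg : Computable g) :
    Computable (Ls Tr g) :=
  comp_map Primrec.list_range.to_comp ((comp_lev Tr g hTr hg).comp Computable.snd).to₂

/-- level sets -/
def TT (s : ℕ) : Finset Str := (lev Tr g s).toFinset

section facts

variable {Tr g}

theorem mem_lev (hpre : ∀ σ τ : Str, σ <+: τ → τ ∈ Tr → σ ∈ Tr)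
    (hbd : ∀ (σ : Str) (i : ℕ), σ ++ [i] ∈ Tr → i < g σ) (s : ℕ) (σ : Str) :
    σ ∈ lev Tr g s ↔ σ ∈ Tr ∧ σ.length = s := by
  induction s generalizing σ with
  | zero =>
    simp only [lev]
    split_ifs with h
    · simp only [List.mem_singleton]
      constructor
      · rintro rfl; exact ⟨h, rfl⟩
      · rintro ⟨_, h2⟩; exact List.length_eq_zero_iff.1 h2
    · constructor
      · intro h'; simp at h'
      · rintro ⟨h1, h2⟩
        rw [List.length_eq_zero_iff.1 h2] at h1
        exact absurd h1 h
  | succ s ih =>
    simp only [lev, List.mem_flatMap, child]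
    constructor
    · rintro ⟨τ, hτ, i, _, hi⟩
      split_ifs at hi with h
      · rw [List.mem_singleton] at hi
        subst hi
        rw [ih] at hτ
        exact ⟨h, by simp [hτ.2]⟩
      · simp at hi
    · rintro ⟨h1, h2⟩
      have hne : σ ≠ [] := by rintro rfl; simp at h2
      have h3 := List.dropLast_append_getLast hne
      refine ⟨σ.dropLast, ?_, σ.getLast hne, ?_, ?_⟩
      · rw [ih]
        exact ⟨hpre _ _ (List.dropLast_prefix σ) h1, by simp [h2]⟩
      · rw [List.mem_range]
        apply hbd
        rw [h3]; exact h1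
      · rw [h3, if_pos h1]; simp

theorem nodup_lev (s : ℕ) : (lev Tr g s).Nodup := by
  induction s with
  | zero => simp only [lev]; split_ifs <;> simp
  | succ s ih =>
    simp only [lev]
    rw [List.nodup_flatMap]
    constructor
    · intro σ _
      unfold child
      rw [List.nodup_flatMap]
      constructor
      · intro i _
        split_ifs <;> simp
      · apply List.Pairwise.imp _ (List.nodup_range (n := g σ))
        intro i j hij
        rw [Function.onFun, List.disjoint_left]
        intro τ h1 h2
        split_ifs at h1 h2 <;> simp at h1 h2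
        rw [h1] at h2
        apply hij
        simpa using h2
    · apply List.Pairwise.imp _ ih
      intro σ τ hστ
      rw [Function.onFun, List.disjoint_left]
      intro ρ h1 h2
      unfold child at h1 h2
      rw [List.mem_flatMap] at h1 h2
      obtain ⟨i, _, hi⟩ := h1
      obtain ⟨j, _, hj⟩ := h2
      split_ifs at hi hj <;> simp at hi hj
      rw [hi] at hj
      apply hστ
      have := congrArg List.dropLast hj
      simpa using this

theorem isLev (hpre : ∀ σ τ : Str, σ <+: τ → τ ∈ Tr → σ ∈ Tr)
    (hbd : ∀ (σ : Str) (i : ℕ), σ ++ [i] ∈ Tr → i < g σ) : IsLev (TT Tr g) where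
  len := by
    intro s ρ hρ
    unfold TT at hρ
    rw [List.mem_toFinset, mem_lev hpre hbd] at hρ
    exact hρ.2
  pre := by
    intro s ρ hρ
    unfold TT at hρ ⊢
    rw [List.mem_toFinset, mem_lev hpre hbd] at hρ ⊢
    refine ⟨hpre _ _ (List.take_prefix _ _) hρ.1, ?_⟩
    rw [List.length_take, hρ.2]; omega

theorem c_TT (j : ℕ) (q : Str) :
    c (TT Tr g) j q = ((lev Tr g j).filter (fun ρ => q ≤ ρ)).length := by
  unfold c TT
  rw [← List.toFinset_card_of_nodup ((nodup_lev j).filter (fun ρ => decide (q ≤ ρ)))]
  congr 1
  ext ρ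
  simp

theorem card_TT (j : ℕ) : (TT Tr g j).card = (lev Tr g j).length :=
  List.toFinset_card_of_nodup (nodup_lev j)

theorem run_Ls (q : Str) (s : ℕ) : run (Ls Tr g (s + 1)) q =
    (s + 1, Pi (TT Tr g) (s + 1), ∏ l ∈ Finset.range (s + 1), M (TT Tr g) l ^ c (TT Tr g) l q,
      c (TT Tr g) s q) := by
  have gen : ∀ s, (run (Ls Tr g s) q).1 = s ∧ (run (Ls Tr g s) q).2.1 = Pi (TT Tr g) s ∧
      (run (Ls Tr g s) q).2.2.1 = ∏ l ∈ Finset.range s, M (TT Tr g) l ^ c (TT Tr g) l q := by
    intro s
    induction s with
    | zero => simp [run, Ls, Pi]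
    | succ s ih =>
      have e : run (Ls Tr g (s + 1)) q = stp q (run (Ls Tr g s) q) (lev Tr g s) := by
        unfold run Ls
        rw [List.range_succ, List.map_append, List.foldl_append]
        rfl
      rw [e]
      unfold stp
      simp only
      rw [ih.1, ih.2.1, ih.2.2, ← c_TT, ← card_TT]
      refine ⟨rfl, rfl, ?_⟩
      rw [Finset.prod_range_succ]
      rfl
  have e : run (Ls Tr g (s + 1)) q = stp q (run (Ls Tr g s) q) (lev Tr g s) := by
    unfold run Ls
    rw [List.range_succ, List.map_append, List.foldl_append]
    rfl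
  obtain ⟨h1, h2, h3⟩ := gen (s + 1)
  refine Prod.ext h1 (Prod.ext h2 (Prod.ext h3 ?_))
  rw [e]
  unfold stp
  simp only
  rw [c_TT]

theorem wL_Ls (s : ℕ) : wL (Ls Tr g (s + 1)) = w (TT Tr g) s := by
  funext q
  unfold wL w
  rw [run_Ls]

theorem piL_Ls (s : ℕ) : piL (Ls Tr g s) = Pi (TT Tr g) s := by
  unfold piL
  cases s with
  | zero => simp [run, Ls, Pi]
  | succ s => rw [run_Ls]

theorem isPath_iff (hpre : ∀ σ τ : Str, σ <+: τ → τ ∈ Tr → σ ∈ Tr)
    (hbd : ∀ (σ : Str) (i : ℕ), σ ++ [i] ∈ Tr → i < g σ) (x : ℕ → ℕ) :
    IsPath (TT Tr g) x ↔ ∀ n, restr x n ∈ Tr := by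
  unfold IsPath TT
  constructor
  · intro h n
    have := h n
    rw [List.mem_toFinset, mem_lev hpre hbd] at this
    exact this.1
  · intro h n
    rw [List.mem_toFinset, mem_lev hpre hbd]
    exact ⟨h n, restr_length x n⟩

end facts

end Pool.Agent.Helper298.Lev
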