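import Mathlib

set_option autoImplicit false

namespace Pool.Agent.Helper298.Oracle

open Encodable

/-- one step of the course-of-values recursion, on codes -/
def stp (p : ℕ × ℕ) : List ℕ := (decode (α := List ℕ) p.1).getD [] ++ [p.2]

theorem stp_comp : Primrec stp := by
  unfold stp
  exact Primrec.list_append.comp
    (Primrec.option_getD.comp (Primrec.decode.comp Primrec.fst) (Primrec.const []))
    (Primrec.list_cons.comp Primrec.snd (Primrec.const []))

theorem nat_rec_in {f : ℕ → ℕ} (hf : Computable f) (O : Set (ℕ →. ℕ)) :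
    Nat.RecursiveIn O (fun n => Part.some (f n)) := by
  have h1 : Partrec (fun n => (Part.some (f n) : Part ℕ)) := hf.partrec
  exact Nat.Partrec.recursiveIn (Partrec.nat_iff.1 h1)

theorem hist_rec (g : ℕ → ℕ) :
    Nat.RecursiveIn {(fun n => Part.some (g n) : ℕ →. ℕ)}
      (fun n => Part.some (encode ((List.range n).map g))) := by
  set O : Set (ℕ →. ℕ) := {(fun n => Part.some (g n) : ℕ →. ℕ)} with hO
  have hor : Nat.RecursiveIn O (fun n => Part.some (g n)) := .oracle _ (by rw [hO]; exact rfl)
  -- the step function
  have hy : Nat.RecursiveIn O (fun p => Part.some (p.unpair.2.unpair.1)) :=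
    nat_rec_in (Computable.fst.comp (Computable.unpair.comp
      (Computable.snd.comp Computable.unpair))) O
  have hi : Nat.RecursiveIn O (fun p => Part.some (p.unpair.2.unpair.2)) :=
    nat_rec_in (Computable.snd.comp (Computable.unpair.comp
      (Computable.snd.comp Computable.unpair))) O
  have hgy : Nat.RecursiveIn O (fun p => Part.some (g p.unpair.2.unpair.1)) := by
    refine Nat.RecursiveIn.of_eq (.comp hor hy) fun p => ?_
    simp
  have hpair : Nat.RecursiveIn O
      (fun p => Part.some (Nat.pair p.unpair.2.unpair.2 (g p.unpair.2.unpair.1))) := by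
    refine Nat.RecursiveIn.of_eq (.pair hi hgy) fun p => ?_
    simp [Seq.seq]
  have hst : Nat.RecursiveIn O (fun q => Part.some (encode (stp q.unpair))) :=
    nat_rec_in (Computable.encode.comp (stp_comp.to_comp.comp Computable.unpair)) O
  have hstep : Nat.RecursiveIn O (fun p =>
      Part.some (encode (stp (p.unpair.2.unpair.2, g p.unpair.2.unpair.1)))) := by
    refine Nat.RecursiveIn.of_eq (.comp hst hpair) fun p => ?_
    simp
  have hbase : Nat.RecursiveIn O (fun _ => Part.some (encode ([] : List ℕ))) :=
    nat_rec_in (Computable.const _) O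
  have hprec := Nat.RecursiveIn.prec hbase hstep
  have hin : Nat.RecursiveIn O (fun n => Part.some (Nat.pair 0 n)) :=
    nat_rec_in ((Primrec₂.natPair.comp (Primrec.const 0) Primrec.id).to_comp) O
  refine Nat.RecursiveIn.of_eq (.comp hprec hin) fun n => ?_
  simp only [Part.bind_eq_bind, Part.bind_some, Nat.unpair_pair]
  induction n with
  | zero => simp
  | succ n ih =>
    simp only [ih, Part.bind_some]
    congr 1
    simp [stp, List.range_succ]

theorem red_of_tt {f g : ℕ → ℕ} {Φ : ℕ → List ℕ → ℕ} {u : ℕ → ℕ} (hΦ : Computable₂ Φ)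
    (hu : Computable u) (hf : ∀ n, f n = Φ n ((List.range (u n)).map g)) :
    TuringReducible (f : ℕ →. ℕ) (g : ℕ →. ℕ) := by
  unfold TuringReducible
  rw [RecursiveIn.iff_nat]
  have e1 : ((g : ℕ →. ℕ)) = (fun n => Part.some (g n)) := rfl
  rw [e1]
  set O : Set (ℕ →. ℕ) := {(fun n => Part.some (g n) : ℕ →. ℕ)} with hO
  have h1 : Nat.RecursiveIn O (fun n => Part.some (encode ((List.range (u n)).map g))) := by
    refine Nat.RecursiveIn.of_eq (.comp (hist_rec g) (nat_rec_in hu O)) fun n => ?_
    simp
  have h2 : Nat.RecursiveIn O (fun n => Part.some (Nat.pair n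
      (encode ((List.range (u n)).map g)))) := by
    refine Nat.RecursiveIn.of_eq (.pair (nat_rec_in Computable.id O) h1) fun n => ?_
    simp [Seq.seq]
  have h3 : Nat.RecursiveIn O (fun q => Part.some (Φ q.unpair.1
      ((decode (α := List ℕ) q.unpair.2).getD []))) := by
    apply nat_rec_in
    exact hΦ.comp (Computable.fst.comp Computable.unpair)
      ((Primrec.option_getD.comp (Primrec.decode.comp (Primrec.snd.comp Primrec.unpair))
        (Primrec.const [])).to_comp)
  refine Nat.RecursiveIn.of_eq (.comp h3 h2) fun n => ?_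
  simp [hf]

end Pool.Agent.Helper298.Oracle
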