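import Mathlib
import Pool.Agent.Helper298.Lev

set_option autoImplicit false

namespace Pool.Agent.Helper298.Ring

open Pool.Agent.Helper298.Wt Pool.Agent.Helper298.Alg Pool.Agent.Helper298.Code
open Pool.Agent.Helper298.Spec Pool.Agent.Helper298.Eff Pool.Agent.Helper298.PR
open Pool.Agent.Helper298.Lev

theorem neg_eq_self (r : K) : -r = r := by
  have h2 : (2 : K) = 0 := by
    have h2 : (2 : A) = 0 := CharTwo.two_eq_zero
    calc (2 : K) = algebraMap A K 2 := (map_ofNat (algebraMap A K) 2).symm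
      _ = 0 := by rw [h2, map_zero]
  have : r + r = 0 := by rw [← two_mul, h2, zero_mul]
  exact neg_eq_of_add_eq_zero_left this

/-- indices: numerator, denominator, stage -/
abbrev Ix := Poly × Poly × ℕ

variable (T : ℕ → Finset Str)

def valid (a : Ix) : Prop :=
  2 * (sz a.1 + sz a.2.1) + 1 ≤ a.2.2 ∧ nz a.2.1 ∧ gen (w T a.2.2) 0 1 a.1 a.2.1

def zeroIx : Ix := ([], [[]], 1)

theorem den_one : den [[]] = 1 := by simp [den, mon]

theorem valid_zero : valid T zeroIx := by
  refine ⟨?_, ?_, ?_⟩
  · simp [zeroIx, sz]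
  · rw [nz_iff]; simp [zeroIx, den_one]
  · intro m hm; simp [zeroIx] at hm

open Classical in
noncomputable def norm (a : Ix) : Ix := if valid T a then a else zeroIx

theorem valid_norm (a : Ix) : valid T (norm T a) := by
  unfold norm
  split_ifs with h
  · exact h
  · exact valid_zero T

variable {T}

theorem valid_fr_mem (hT : IsLev T) {a : Ix} (h : valid T a) : fr a.1 a.2.1 ∈ V (w T) :=
  valid_mem hT ((nz_iff _).1 h.2.1) (by have := h.1; omega) h.2.2

open Classical in
/-- the element of `V` with a given index -/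
noncomputable def elem (hT : IsLev T) (a : Ix) : V (w T) :=
  ⟨fr (norm T a).1 (norm T a).2.1, valid_fr_mem hT (valid_norm T a)⟩

theorem norm_norm (a : Ix) : norm T (norm T a) = norm T a := by
  have := valid_norm T a
  conv_lhs => rw [norm, if_pos this]

theorem elem_norm (hT : IsLev T) (a : Ix) : elem hT (norm T a) = elem hT a := by
  unfold elem
  simp only [norm_norm]

theorem elem_valid (hT : IsLev T) {a : Ix} (h : valid T a) : (elem hT a : K) = fr a.1 a.2.1 := by
  have : norm T a = a := by rw [norm, if_pos h]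
  unfold elem
  simp only [this]

theorem elem_surj (hT : IsLev T) (r : V (w T)) : ∃ a, elem hT a = r := by
  obtain ⟨F, G, s, hG, hs, hg, hr⟩ := exists_valid r.2
  refine ⟨(F, G, s), Subtype.ext ?_⟩
  have hv : valid T (F, G, s) := ⟨hs, (nz_iff _).2 hG, hg⟩
  rw [elem_valid hT hv, hr]

/-- sum of normalised indices -/
def addR (a b : Ix) : Ix :=
  (pmul a.1 b.2.1 ++ pmul a.2.1 b.1, pmul a.2.1 b.2.1,
    a.2.2 + b.2.2 + (2 * (sz (pmul a.1 b.2.1 ++ pmul a.2.1 b.1) + sz (pmul a.2.1 b.2.1)) + 1))

def mulR (a b : Ix) : Ix :=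
  (pmul a.1 b.1, pmul a.2.1 b.2.1,
    a.2.2 + b.2.2 + (2 * (sz (pmul a.1 b.1) + sz (pmul a.2.1 b.2.1)) + 1))

theorem fr_add {F G F' G' : Poly} (hG : den G ≠ 0) (hG' : den G' ≠ 0) :
    fr (pmul F G' ++ pmul G F') (pmul G G') = fr F G + fr F' G' := by
  unfold fr
  rw [den_append, den_pmul, den_pmul, den_pmul, div_add_div _ _ (am_ne_zero hG) (am_ne_zero hG')]
  simp only [map_add, map_mul]

theorem fr_mul (F G F' G' : Poly) : fr (pmul F F') (pmul G G') = fr F G * fr F' G' := by
  unfold fr
  rw [den_pmul, den_pmul, div_mul_div_comm]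
  simp only [map_mul]

theorem gen_zero_iff (w : Str → ℕ) {F G : Poly} (hG : den G ≠ 0) :
    gen w 0 1 F G ↔ fr F G = 0 ∨ 0 ≤ v w (fr F G) := by
  rw [gen_iff_v _ _ _ _ _ hG]
  by_cases hF : den F = 0
  · simp [hF, fr_eq_zero]
  · simp [hF, fr_ne_zero hF hG]

theorem valid_addR (hT : IsLev T) {a b : Ix} (ha : valid T a) (hb : valid T b) :
    valid T (addR a b) := by
  obtain ⟨F, G, s⟩ := a
  obtain ⟨F', G', s'⟩ := b
  have hG := (nz_iff _).1 ha.2.1
  have hG' := (nz_iff _).1 hb.2.1
  simp only at hG hG'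
  have hGG : den (pmul G G') ≠ 0 := by rw [den_pmul]; exact mul_ne_zero hG hG'
  have ha1 : 2 * (sz F + sz G) + 1 ≤ s := ha.1
  have hb1 : 2 * (sz F' + sz G') + 1 ≤ s' := hb.1
  have ha2 : gen (w T s) 0 1 F G := ha.2.2
  have hb2 : gen (w T s') 0 1 F' G' := hb.2.2
  refine ⟨?_, ?_, ?_⟩
  · change 2 * (sz (pmul F G' ++ pmul G F') + sz (pmul G G')) + 1 ≤
      s + s' + (2 * (sz (pmul F G' ++ pmul G F') + sz (pmul G G')) + 1)
    omega
  · exact (nz_iff _).2 hGG
  · change gen (w T (s + s' + (2 * (sz (pmul F G' ++ pmul G F') + sz (pmul G G')) + 1))) 0 1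
      (pmul F G' ++ pmul G F') (pmul G G')
    rw [gen_zero_iff _ hGG, fr_add hG hG']
    set S := s + s' + (2 * (sz (pmul F G' ++ pmul G F') + sz (pmul G G')) + 1)
    have h1 := valid_mono hT hG (s := s) (j := S) (by omega)
      (by omega) ha2
    have h2 := valid_mono hT hG' (s := s') (j := S) (by omega)
      (by omega) hb2
    rw [gen_zero_iff _ hG] at h1
    rw [gen_zero_iff _ hG'] at h2
    by_cases h0 : fr F G + fr F' G' = 0
    · exact Or.inl h0
    right
    by_cases h3 : fr F G = 0
    · rw [h3, zero_add] at h0 ⊢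
      exact h2.resolve_left h0
    by_cases h4 : fr F' G' = 0
    · rw [h4, add_zero]
      exact h1.resolve_left h3
    have h5 := v_add (w T S) h3 h4 h0
    have h6 := h1.resolve_left h3
    have h7 := h2.resolve_left h4
    omega

theorem valid_mulR (hT : IsLev T) {a b : Ix} (ha : valid T a) (hb : valid T b) :
    valid T (mulR a b) := by
  obtain ⟨F, G, s⟩ := a
  obtain ⟨F', G', s'⟩ := b
  have hG := (nz_iff _).1 ha.2.1
  have hG' := (nz_iff _).1 hb.2.1
  simp only at hG hG'
  have hGG : den (pmul G G') ≠ 0 := by rw [den_pmul]; exact mul_ne_zero hG hG'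
  have ha1 : 2 * (sz F + sz G) + 1 ≤ s := ha.1
  have hb1 : 2 * (sz F' + sz G') + 1 ≤ s' := hb.1
  have ha2 : gen (w T s) 0 1 F G := ha.2.2
  have hb2 : gen (w T s') 0 1 F' G' := hb.2.2
  refine ⟨?_, ?_, ?_⟩
  · change 2 * (sz (pmul F F') + sz (pmul G G')) + 1 ≤
      s + s' + (2 * (sz (pmul F F') + sz (pmul G G')) + 1)
    omega
  · exact (nz_iff _).2 hGG
  · change gen (w T (s + s' + (2 * (sz (pmul F F') + sz (pmul G G')) + 1))) 0 1
      (pmul F F') (pmul G G')
    rw [gen_zero_iff _ hGG, fr_mul]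
    set S := s + s' + (2 * (sz (pmul F F') + sz (pmul G G')) + 1)
    have h1 := valid_mono hT hG (s := s) (j := S) (by omega)
      (by omega) ha2
    have h2 := valid_mono hT hG' (s := s') (j := S) (by omega)
      (by omega) hb2
    rw [gen_zero_iff _ hG] at h1
    rw [gen_zero_iff _ hG'] at h2
    by_cases h3 : fr F G = 0
    · left; rw [h3, zero_mul]
    by_cases h4 : fr F' G' = 0
    · left; rw [h4, mul_zero]
    right
    rw [v_mul _ h3 h4]
    have h6 := h1.resolve_left h3
    have h7 := h2.resolve_left h4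
    omega

noncomputable def addI (T : ℕ → Finset Str) (a b : Ix) : Ix := addR (norm T a) (norm T b)
noncomputable def mulI (T : ℕ → Finset Str) (a b : Ix) : Ix := mulR (norm T a) (norm T b)

theorem elem_addI (hT : IsLev T) (a b : Ix) : elem hT (addI T a b) = elem hT a + elem hT b := by
  apply Subtype.ext
  have ha := valid_norm T a
  have hb := valid_norm T b
  unfold addI
  rw [elem_valid hT (valid_addR hT ha hb), Subring.coe_add]
  have hG := (nz_iff _).1 ha.2.1
  have hG' := (nz_iff _).1 hb.2.1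
  exact fr_add hG hG'

theorem elem_mulI (hT : IsLev T) (a b : Ix) : elem hT (mulI T a b) = elem hT a * elem hT b := by
  apply Subtype.ext
  have ha := valid_norm T a
  have hb := valid_norm T b
  unfold mulI
  rw [elem_valid hT (valid_mulR hT ha hb), Subring.coe_mul]
  exact fr_mul _ _ _ _

theorem elem_neg (hT : IsLev T) (a : Ix) : elem hT a = - elem hT a := by
  apply Subtype.ext
  rw [Subring.coe_neg, neg_eq_self]

/-- the quotient ring -/
abbrev RQ (T : ℕ → Finset Str) := V (w T) ⧸ I (w T)

noncomputable def qe (hT : IsLev T) (a : Ix) : RQ T := Ideal.Quotient.mk (I (w T)) (elem hT a)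

def eqR (T : ℕ → Finset Str) (a : Ix) : Prop :=
  gen (w T a.2.2) (w T a.2.2 []) 2 a.1 a.2.1

theorem qe_eq_iff (hT : IsLev T) (hne : ∀ s, (T s).Nonempty) (a b : Ix) :
    qe hT a = qe hT b ↔ eqR T (addI T a b) := by
  unfold qe
  rw [Ideal.Quotient.eq]
  have h1 : elem hT a - elem hT b = elem hT (addI T a b) := by
    rw [elem_addI, sub_eq_add_neg, ← elem_neg]
  rw [h1]
  have hv : valid T (addI T a b) := valid_addR hT (valid_norm T a) (valid_norm T b)
  have h2 : elem hT (addI T a b) = ⟨fr (addI T a b).1 (addI T a b).2.1, valid_fr_mem hT hv⟩ :=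
    Subtype.ext (elem_valid hT hv)
  rw [h2]
  exact eq_test hT hne ((nz_iff _).1 hv.2.1) hv.1 _

/-! ### computability -/

section comp

variable {Tr : Set Str} [DecidablePred (· ∈ Tr)] {g : Str → ℕ}

theorem dbl_prim {α : Type*} [Primcodable α] {f : α → ℕ} (hf : Primrec f) :
    Primrec (fun a => 2 * f a + 1) :=
  (Primrec.succ.comp (Primrec.nat_mul.comp (Primrec.const 2) hf)).of_eq fun _ => rfl

theorem szz_prim : Primrec (fun a : Ix => sz a.1 + sz a.2.1) :=
  Primrec.nat_add.comp (sz_prim.comp Primrec.fst) (sz_prim.comp (Primrec.fst.comp Primrec.snd))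

theorem valid1_prim : PrimrecPred (fun a : Ix => 2 * (sz a.1 + sz a.2.1) + 1 ≤ a.2.2) :=
  Primrec.nat_le.comp (dbl_prim szz_prim) (Primrec.snd.comp Primrec.snd)

theorem valid2_prim : PrimrecPred (fun a : Ix => nz a.2.1) :=
  nz_prim.comp (Primrec.fst.comp Primrec.snd)

theorem valid12_prim :
    PrimrecPred (fun a : Ix => 2 * (sz a.1 + sz a.2.1) + 1 ≤ a.2.2 ∧ nz a.2.1) :=
  valid1_prim.and valid2_prim

theorem stage_comp (hTr : ComputablePred (· ∈ Tr)) (hg : Computable g) :
    Computable (fun a : Ix => Ls Tr g (a.2.2 + 1)) :=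
  (comp_Ls Tr g hTr hg).comp (Primrec.succ.to_comp.comp (Computable.snd.comp Computable.snd))

theorem valid3_comp (hTr : ComputablePred (· ∈ Tr)) (hg : Computable g) :
    ComputablePred (fun a : Ix => gen (wL (Ls Tr g (a.2.2 + 1))) 0 1 a.1 a.2.1) := by
  classical
  have harg : Computable (fun a : Ix => ((Ls Tr g (a.2.2 + 1), ((0, 1) : ℕ × ℕ),
      (a.1, a.2.1)) : Arg)) :=
    (stage_comp hTr hg).pair ((Computable.const ((0, 1) : ℕ × ℕ)).pair (Computable.fst.pair
      (Computable.fst.comp Computable.snd)))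
  refine Computable.computablePred (Computable.of_eq
    (gen_prim.computablePred.decide.comp harg) fun a => ?_)
  rw [Bool.eq_iff_iff]

theorem valid_comp (hTr : ComputablePred (· ∈ Tr)) (hg : Computable g) :
    ComputablePred (valid (TT Tr g)) := by
  classical
  have h1 := valid3_comp hTr hg
  have h2 := valid12_prim
  have h3 : Computable (fun a : Ix =>
      (decide (2 * (sz a.1 + sz a.2.1) + 1 ≤ a.2.2 ∧ nz a.2.1) &&
        decide (gen (wL (Ls Tr g (a.2.2 + 1))) 0 1 a.1 a.2.1))) :=
    Primrec.and.to_comp.comp h2.computablePred.decide h1.decide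
  refine Computable.computablePred (Computable.of_eq h3 fun a => ?_)
  unfold valid
  rw [wL_Ls, Bool.eq_iff_iff]
  simp [and_assoc]

theorem norm_comp (hTr : ComputablePred (· ∈ Tr)) (hg : Computable g) :
    Computable (norm (TT Tr g)) := by
  classical
  have h1 := Computable.cond (valid_comp hTr hg).decide (Computable.id (α := Ix))
    (Computable.const zeroIx)
  refine Computable.of_eq h1 fun a => ?_
  unfold norm
  by_cases h : valid (TT Tr g) a
  · simp [h]
  · simp [h]

theorem addR_prim : Primrec₂ addR := by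
  unfold addR
  have aF : Primrec (fun p : Ix × Ix => p.1.1) := Primrec.fst.comp Primrec.fst
  have aG : Primrec (fun p : Ix × Ix => p.1.2.1) :=
    Primrec.fst.comp (Primrec.snd.comp Primrec.fst)
  have aS : Primrec (fun p : Ix × Ix => p.1.2.2) :=
    Primrec.snd.comp (Primrec.snd.comp Primrec.fst)
  have bF : Primrec (fun p : Ix × Ix => p.2.1) := Primrec.fst.comp Primrec.snd
  have bG : Primrec (fun p : Ix × Ix => p.2.2.1) :=
    Primrec.fst.comp (Primrec.snd.comp Primrec.snd)
  have bS : Primrec (fun p : Ix × Ix => p.2.2.2) :=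
    Primrec.snd.comp (Primrec.snd.comp Primrec.snd)
  have num := Primrec.list_append.comp (pmul_prim.comp aF bG) (pmul_prim.comp aG bF)
  have dn := pmul_prim.comp aG bG
  exact num.pair (dn.pair (Primrec.nat_add.comp (Primrec.nat_add.comp aS bS)
    (Primrec.succ.comp (Primrec.nat_mul.comp (Primrec.const 2)
      (Primrec.nat_add.comp (sz_prim.comp num) (sz_prim.comp dn))))))

theorem mulR_prim : Primrec₂ mulR := by
  unfold mulR
  have aF : Primrec (fun p : Ix × Ix => p.1.1) := Primrec.fst.comp Primrec.fst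
  have aG : Primrec (fun p : Ix × Ix => p.1.2.1) :=
    Primrec.fst.comp (Primrec.snd.comp Primrec.fst)
  have aS : Primrec (fun p : Ix × Ix => p.1.2.2) :=
    Primrec.snd.comp (Primrec.snd.comp Primrec.fst)
  have bF : Primrec (fun p : Ix × Ix => p.2.1) := Primrec.fst.comp Primrec.snd
  have bG : Primrec (fun p : Ix × Ix => p.2.2.1) :=
    Primrec.fst.comp (Primrec.snd.comp Primrec.snd)
  have bS : Primrec (fun p : Ix × Ix => p.2.2.2) :=
    Primrec.snd.comp (Primrec.snd.comp Primrec.snd)
  have num := pmul_prim.comp aF bF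
  have dn := pmul_prim.comp aG bG
  exact num.pair (dn.pair (Primrec.nat_add.comp (Primrec.nat_add.comp aS bS)
    (Primrec.succ.comp (Primrec.nat_mul.comp (Primrec.const 2)
      (Primrec.nat_add.comp (sz_prim.comp num) (sz_prim.comp dn))))))

theorem addI_comp (hTr : ComputablePred (· ∈ Tr)) (hg : Computable g) :
    Computable₂ (addI (TT Tr g)) := by
  unfold addI
  exact addR_prim.to_comp.comp ((norm_comp hTr hg).comp Computable.fst)
    ((norm_comp hTr hg).comp Computable.snd)

theorem mulI_comp (hTr : ComputablePred (· ∈ Tr)) (hg : Computable g) :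
    Computable₂ (mulI (TT Tr g)) := by
  unfold mulI
  exact mulR_prim.to_comp.comp ((norm_comp hTr hg).comp Computable.fst)
    ((norm_comp hTr hg).comp Computable.snd)

theorem eqR_comp (hTr : ComputablePred (· ∈ Tr)) (hg : Computable g) :
    ComputablePred (eqR (TT Tr g)) := by
  classical
  have hstage : Computable (fun a : Ix => Ls Tr g (a.2.2 + 1)) :=
    (comp_Ls Tr g hTr hg).comp (Primrec.succ.to_comp.comp (Computable.snd.comp Computable.snd))
  have hw : Computable (fun a : Ix => wL (Ls Tr g (a.2.2 + 1)) []) :=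
    wL_prim.to_comp.comp hstage (Computable.const [])
  have harg : Computable (fun a : Ix => ((Ls Tr g (a.2.2 + 1),
      ((wL (Ls Tr g (a.2.2 + 1)) [], 2) : ℕ × ℕ), (a.1, a.2.1)) : Arg)) :=
    hstage.pair ((hw.pair (Computable.const 2)).pair (Computable.fst.pair
      (Computable.fst.comp Computable.snd)))
  refine Computable.computablePred (Computable.of_eq
    (gen_prim.computablePred.decide.comp harg) fun a => ?_)
  rw [Bool.eq_iff_iff]
  simp only [decide_eq_true_eq]
  unfold eqR
  rw [wL_Ls]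

end comp

end Pool.Agent.Helper298.Ring
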