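import Mathlib

set_option autoImplicit false

namespace Pool.Agent.Helper298.Trans

variable {R : Type*} (π : ℕ → R)

/-- the set of least codes -/
def Car : Set ℕ := {n | ∀ m < n, π m ≠ π n}

theorem exists_rep (n : ℕ) : ∃ m, π m = π n := ⟨n, rfl⟩

open Classical in
noncomputable def rep (n : ℕ) : ℕ := Nat.find (exists_rep π n)

theorem rep_spec (n : ℕ) : π (rep π n) = π n := by
  classical
  exact Nat.find_spec (exists_rep π n)

theorem rep_mem (n : ℕ) : rep π n ∈ Car π := by
  classical
  intro m hm h
  exact Nat.find_min (exists_rep π n) hm (h.trans (rep_spec π n))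

theorem car_inj {m n : ℕ} (hm : m ∈ Car π) (hn : n ∈ Car π) (h : π m = π n) : m = n := by
  rcases lt_trichotomy m n with h1 | h1 | h1
  · exact absurd h (hn m h1)
  · exact h1
  · exact absurd h.symm (hm n h1)

theorem rep_of_mem {n : ℕ} (h : n ∈ Car π) : rep π n = n :=
  car_inj π (rep_mem π n) h (rep_spec π n)

theorem mem_car_iff (n : ℕ) : n ∈ Car π ↔ rep π n = n :=
  ⟨rep_of_mem π, fun h => h ▸ rep_mem π n⟩

theorem rep_comp (h : ComputablePred (fun p : ℕ × ℕ => π p.1 = π p.2)) :
    Computable (rep π) := by
  classical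
  have h1 : Computable₂ (fun (n m : ℕ) => decide (π m = π n)) := by
    have := h.decide.comp (Computable.snd.pair Computable.fst : Computable (fun p : ℕ × ℕ =>
      (p.2, p.1)))
    refine Computable.of_eq this fun p => ?_
    rfl
  have h2 := Partrec.rfind h1.partrec₂
  refine Partrec.of_eq_tot h2 fun n => ?_
  rw [Nat.mem_rfind]
  constructor
  · simp [rep_spec]
  · intro m hm
    have := Nat.find_min (exists_rep π n) hm
    simpa using this

theorem car_comp (h : ComputablePred (fun p : ℕ × ℕ => π p.1 = π p.2)) :
    ComputablePred (fun n => n ∈ Car π) := by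
  classical
  have h1 : Computable (fun n => decide (rep π n = n)) :=
    (Primrec.eq (α := ℕ)).decide.to_comp.comp (rep_comp π h) Computable.id
  refine Computable.computablePred (Computable.of_eq h1 fun n => ?_)
  simp [mem_car_iff]

variable [CommRing R]

/-- bijection with the ring -/
noncomputable def eqv (hs : Function.Surjective π) : Car π ≃ R :=
  Equiv.ofBijective (fun n => π n)
    ⟨fun a b h => Subtype.ext (car_inj π a.2 b.2 h), fun r => by
      obtain ⟨n, rfl⟩ := hs r
      exact ⟨⟨rep π n, rep_mem π n⟩, rep_spec π n⟩⟩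

theorem eqv_apply (hs : Function.Surjective π) (a : Car π) : eqv π hs a = π a := rfl

theorem eqv_symm (hs : Function.Surjective π) (n : ℕ) :
    (eqv π hs).symm (π n) = ⟨rep π n, rep_mem π n⟩ := by
  rw [Equiv.symm_apply_eq, eqv_apply]
  exact (rep_spec π n).symm

/-- transported ring structure -/
@[reducible]
noncomputable def ring (hs : Function.Surjective π) : CommRing (Car π) := (eqv π hs).commRing

theorem add_val (hs : Function.Surjective π) {f : ℕ → ℕ → ℕ}
    (hf : ∀ m n, π (f m n) = π m + π n) (a b : Car π) :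
    letI := ring π hs
    ((a + b : Car π) : ℕ) = rep π (f a b) := by
  letI := ring π hs
  have h1 : a + b = (eqv π hs).symm (eqv π hs a + eqv π hs b) := rfl
  rw [h1, eqv_apply, eqv_apply, ← hf, eqv_symm]

theorem mul_val (hs : Function.Surjective π) {f : ℕ → ℕ → ℕ}
    (hf : ∀ m n, π (f m n) = π m * π n) (a b : Car π) :
    letI := ring π hs
    ((a * b : Car π) : ℕ) = rep π (f a b) := by
  letI := ring π hs
  have h1 : a * b = (eqv π hs).symm (eqv π hs a * eqv π hs b) := rfl
  rw [h1, eqv_apply, eqv_apply, ← hf, eqv_symm]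

theorem neg_val (hs : Function.Surjective π) {f : ℕ → ℕ}
    (hf : ∀ m, π (f m) = - π m) (a : Car π) :
    letI := ring π hs
    ((-a : Car π) : ℕ) = rep π (f a) := by
  letI := ring π hs
  have h1 : -a = (eqv π hs).symm (-eqv π hs a) := rfl
  rw [h1, eqv_apply, ← hf, eqv_symm]

/-- ring isomorphism -/
noncomputable def reqv (hs : Function.Surjective π) :
    letI := ring π hs
    Car π ≃+* R :=
  letI := ring π hs
  (eqv π hs).ringEquiv

theorem reqv_apply (hs : Function.Surjective π) (a : Car π) :
    letI := ring π hs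
    reqv π hs a = π a := rfl

end Pool.Agent.Helper298.Trans
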