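import Mathlib
import Pool.Agent.Helper298.Ring
import Pool.Agent.Helper298.Trans
import Pool.Agent.Helper298.Oracle

set_option autoImplicit false

namespace Pool.Agent.Helper298.Main

open Encodable
open Pool.Agent.Helper298.Wt Pool.Agent.Helper298.Alg Pool.Agent.Helper298.Code
open Pool.Agent.Helper298.Spec Pool.Agent.Helper298.Eff Pool.Agent.Helper298.PR
open Pool.Agent.Helper298.Lev Pool.Agent.Helper298.Ring Pool.Agent.Helper298.Trans

section

variable {T : ℕ → Finset Str}

/-- decoding of indices -/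
def dec (n : ℕ) : Ix := (decode (α := Ix) n).getD zeroIx

theorem dec_encode (a : Ix) : dec (encode a) = a := by
  unfold dec
  rw [Encodable.encodek]
  rfl

theorem dec_comp : Computable dec :=
  (Primrec.option_getD.comp Primrec.decode (Primrec.const zeroIx)).to_comp

/-- the enumeration of the quotient ring -/
noncomputable def pr (hT : IsLev T) (n : ℕ) : RQ T := qe hT (dec n)

theorem pr_surj (hT : IsLev T) : Function.Surjective (pr hT) := by
  intro r
  obtain ⟨r', rfl⟩ := Ideal.Quotient.mk_surjective r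
  obtain ⟨a, ha⟩ := elem_surj hT r'
  exact ⟨encode a, by unfold pr qe; rw [dec_encode, ha]⟩

theorem pr_add (hT : IsLev T) (m n : ℕ) :
    pr hT (encode (addI T (dec m) (dec n))) = pr hT m + pr hT n := by
  unfold pr qe
  rw [dec_encode, elem_addI, map_add]

theorem pr_mul (hT : IsLev T) (m n : ℕ) :
    pr hT (encode (mulI T (dec m) (dec n))) = pr hT m * pr hT n := by
  unfold pr qe
  rw [dec_encode, elem_mulI, map_mul]

theorem pr_neg (hT : IsLev T) (m : ℕ) : pr hT m = - pr hT m := by
  unfold pr qe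
  conv_lhs => rw [elem_neg]
  rw [map_neg]

/-- the prime of the quotient attached to a path -/
noncomputable def Qx (hT : IsLev T) (x : ℕ → ℕ) : Ideal (RQ T) :=
  (px T hT x).map (Ideal.Quotient.mk (I (w T)))

theorem mem_Qx (hT : IsLev T) (x : ℕ → ℕ) (r : V (w T)) :
    Ideal.Quotient.mk (I (w T)) r ∈ Qx hT x ↔ r ∈ px T hT x :=
  Ideal.mem_quotient_iff_mem (I_le_px hT x)

theorem Qx_prime (hT : IsLev T) {x : ℕ → ℕ} (hx : IsPath T x) : (Qx hT x).IsPrime := by
  have := px_prime hT hx
  refine Ideal.map_isPrime_of_surjective Ideal.Quotient.mk_surjective ?_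
  rw [Ideal.mk_ker]
  exact I_le_px hT x

/-- the ideal of the transported ring -/
noncomputable def Jx (hT : IsLev T) (x : ℕ → ℕ) :
    letI := ring (pr hT) (pr_surj hT)
    Ideal (Car (pr hT)) :=
  letI := ring (pr hT) (pr_surj hT)
  (Qx hT x).comap (reqv (pr hT) (pr_surj hT))

theorem mem_Jx (hT : IsLev T) (x : ℕ → ℕ) (a : Car (pr hT)) :
    letI := ring (pr hT) (pr_surj hT)
    a ∈ Jx hT x ↔ elem hT (dec a) ∈ px T hT x := by
  letI := ring (pr hT) (pr_surj hT)
  unfold Jx
  rw [Ideal.mem_comap]
  change pr hT a ∈ Qx hT x ↔ _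
  unfold pr qe
  exact mem_Qx hT x _

theorem Jx_prime (hT : IsLev T) {x : ℕ → ℕ} (hx : IsPath T x) :
    letI := ring (pr hT) (pr_surj hT)
    (Jx hT x).IsPrime := by
  letI := ring (pr hT) (pr_surj hT)
  have := Qx_prime hT hx
  unfold Jx
  exact Ideal.comap_isPrime _ _

theorem Jx_inj (hT : IsLev T) {x y : ℕ → ℕ} (hx : IsPath T x) (hy : IsPath T y)
    (h : Jx hT x = Jx hT y) : x = y := by
  letI := ring (pr hT) (pr_surj hT)
  apply px_inj hT hx hy
  ext r
  obtain ⟨a, rfl⟩ := elem_surj hT r
  have h1 : Ideal.Quotient.mk (I (w T)) (elem hT a) = pr hT (encode a) := by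
    unfold pr qe; rw [dec_encode]
  have h2 := rep_spec (pr hT) (encode a)
  have key : ∀ z, (elem hT a ∈ px T hT z ↔ (⟨rep (pr hT) (encode a), rep_mem _ _⟩ : Car (pr hT))
      ∈ Jx hT z) := by
    intro z
    unfold Jx
    rw [Ideal.mem_comap]
    change _ ↔ pr hT (rep (pr hT) (encode a)) ∈ Qx hT z
    rw [h2, ← h1]
    exact (mem_Qx hT z _).symm
  rw [key x, key y, h]

theorem Jx_surj (hT : IsLev T) (hne : ∀ s, (T s).Nonempty) :
    letI := ring (pr hT) (pr_surj hT)
    ∀ p : Ideal (Car (pr hT)), p.IsPrime → ∃ x, IsPath T x ∧ Jx hT x = p := by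
  letI := ring (pr hT) (pr_surj hT)
  intro p hp
  set e := reqv (pr hT) (pr_surj hT) with he
  set q : Ideal (V (w T)) := (p.comap (e.symm : RQ T →+* Car (pr hT))).comap
    (Ideal.Quotient.mk (I (w T))) with hq
  have hqp : q.IsPrime := Ideal.comap_isPrime _ _
  have hqI : I (w T) ≤ q := by
    intro r hr
    rw [hq, Ideal.mem_comap, Ideal.Quotient.eq_zero_iff_mem.2 hr]
    exact Ideal.zero_mem _
  obtain ⟨x, hx, hqx⟩ := px_surj hT hne q hqp hqI
  refine ⟨x, hx, ?_⟩
  ext a
  rw [mem_Jx, ← hqx, hq, Ideal.mem_comap, Ideal.mem_comap]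
  have h1 : Ideal.Quotient.mk (I (w T)) (elem hT (dec a)) = e a := rfl
  rw [h1]
  simp

/-- index of the generator attached to a node -/
def tix (ρ : Str) : Ix := ([[ρ]], [[]], 2 * ρ.length + 3)

theorem tix_comp : Computable tix := by
  unfold tix
  have h1 : Primrec (fun ρ : Str => [[ρ]]) :=
    Primrec.list_cons.comp (Primrec.list_cons.comp Primrec.id (Primrec.const []))
      (Primrec.const [])
  have h2 : Primrec (fun ρ : Str => 2 * ρ.length + 3) :=
    Primrec.nat_add.comp (Primrec.nat_mul.comp (Primrec.const 2) Primrec.list_length)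
      (Primrec.const 3)
  exact (h1.pair ((Primrec.const [[]]).pair h2)).to_comp

theorem tix_valid (ρ : Str) : valid T (tix ρ) := by
  refine ⟨?_, ?_, ?_⟩
  · simp [tix, sz]; omega
  · rw [nz_iff]; simp [tix, den_one]
  · change gen (w T (2 * ρ.length + 3)) 0 1 [[ρ]] [[]]
    rw [gen_zero_iff _ (by simp [den_one])]
    right
    have : fr [[ρ]] [[]] = t ρ := by
      unfold fr t; simp [den, mon]
    rw [this, v_t]
    positivity

theorem elem_tix (hT : IsLev T) (ρ : Str) : elem hT (tix ρ) = tV T ρ := by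
  apply Subtype.ext
  rw [elem_valid hT (tix_valid ρ), tV_coe]
  unfold tix fr t
  simp [den, mon]

/-- code of the generator attached to a node -/
noncomputable def code (hT : IsLev T) (ρ : Str) : ℕ := rep (pr hT) (encode (tix ρ))

theorem code_mem_iff (hT : IsLev T) {x : ℕ → ℕ} (hx : IsPath T x) {s : ℕ} {ρ : Str}
    (hρ : ρ ∈ T s) :
    (⟨code hT ρ, rep_mem _ _⟩ : Car (pr hT)) ∈ Jx hT x ↔ ρ ≤ restr x s := by
  letI := ring (pr hT) (pr_surj hT)
  rw [← tV_mem_px hT hx hρ]
  unfold Jx
  rw [Ideal.mem_comap]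
  change pr hT (rep (pr hT) (encode (tix ρ))) ∈ Qx hT x ↔ _
  rw [rep_spec (pr hT)]
  unfold pr qe
  rw [dec_encode, elem_tix]
  exact mem_Qx hT x _

/-- stages used by the membership test -/
def st1 (a : Ix) : ℕ := 2 * (sz a.1 + sz a.2.1) + 1
def st2 (T : ℕ → Finset Str) (a : Ix) : ℕ := st1 a + 2 * Pi T (st1 a) * (sz a.1 + sz a.2.1) + 1

theorem mem_Jx_test (hT : IsLev T) {x : ℕ → ℕ} (hx : IsPath T x) (a : Car (pr hT)) :
    a ∈ Jx hT x ↔ gen (w T (st2 T (norm T (dec a)))) (w T (st2 T (norm T (dec a)))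
      (restr x (st1 (norm T (dec a))))) (2 * Pi T (st1 (norm T (dec a))))
      (norm T (dec a)).1 (norm T (dec a)).2.1 := by
  letI := ring (pr hT) (pr_surj hT)
  rw [mem_Jx]
  have hv := valid_norm T (dec a)
  exact mem_test hT hx ((nz_iff _).1 hv.2.1) rfl rfl _

end

/-! ### computability -/

section comp

variable {Tr : Set Str} [DecidablePred (· ∈ Tr)] {g : Str → ℕ}

theorem pr_comp (hT : IsLev (TT Tr g)) (hne : ∀ s, (TT Tr g s).Nonempty)
    (hTr : ComputablePred (· ∈ Tr)) (hg : Computable g) :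
    ComputablePred (fun p : ℕ × ℕ => pr hT p.1 = pr hT p.2) := by
  classical
  have h1 : Computable (fun p : ℕ × ℕ => addI (TT Tr g) (dec p.1) (dec p.2)) :=
    (addI_comp hTr hg).comp (dec_comp.comp Computable.fst) (dec_comp.comp Computable.snd)
  have h2 := (eqR_comp hTr hg).decide.comp h1
  refine Computable.computablePred (Computable.of_eq h2 fun p => ?_)
  rw [Bool.eq_iff_iff]
  simp only [decide_eq_true_eq]
  exact (qe_eq_iff hT hne _ _).symm

theorem st1_comp : Computable st1 := (dbl_prim szz_prim).to_comp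

theorem Pi_comp (hTr : ComputablePred (· ∈ Tr)) (hg : Computable g) :
    Computable (Pi (TT Tr g)) := by
  refine Computable.of_eq (piL_prim.to_comp.comp (comp_Ls Tr g hTr hg)) fun s => ?_
  exact piL_Ls s

theorem Pi1_comp (hTr : ComputablePred (· ∈ Tr)) (hg : Computable g) :
    Computable (fun a : Ix => 2 * Pi (TT Tr g) (st1 a)) :=
  Primrec.nat_mul.to_comp.comp (Computable.const 2) ((Pi_comp hTr hg).comp st1_comp)

theorem st2_comp (hTr : ComputablePred (· ∈ Tr)) (hg : Computable g) :
    Computable (st2 (TT Tr g)) := by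
  have h1 : Computable (fun a : Ix => 2 * Pi (TT Tr g) (st1 a) * (sz a.1 + sz a.2.1)) :=
    Primrec.nat_mul.to_comp.comp (Pi1_comp hTr hg) szz_prim.to_comp
  have h2 : Computable (fun a : Ix => st1 a + 2 * Pi (TT Tr g) (st1 a) * (sz a.1 + sz a.2.1)) :=
    Primrec.nat_add.to_comp.comp st1_comp h1
  exact Computable.succ.comp h2

/-- the test as a predicate -/
def tst (T : ℕ → Finset Str) (a : Ix) (l : List ℕ) : Prop :=
  gen (w T (st2 T a)) (w T (st2 T a) l) (2 * Pi T (st1 a)) a.1 a.2.1

theorem tst_comp (hTr : ComputablePred (· ∈ Tr)) (hg : Computable g) :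
    ComputablePred (fun p : Ix × List ℕ => tst (TT Tr g) p.1 p.2) := by
  classical
  have hst : Computable (fun p : Ix × List ℕ => Ls Tr g (st2 (TT Tr g) p.1 + 1)) :=
    (comp_Ls Tr g hTr hg).comp (Computable.succ.comp ((st2_comp hTr hg).comp Computable.fst))
  have hw : Computable (fun p : Ix × List ℕ => wL (Ls Tr g (st2 (TT Tr g) p.1 + 1)) p.2) :=
    wL_prim.to_comp.comp hst Computable.snd
  have hP : Computable (fun p : Ix × List ℕ => 2 * Pi (TT Tr g) (st1 p.1)) :=
    (Pi1_comp hTr hg).comp Computable.fst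
  have harg : Computable (fun p : Ix × List ℕ => ((Ls Tr g (st2 (TT Tr g) p.1 + 1),
      ((wL (Ls Tr g (st2 (TT Tr g) p.1 + 1)) p.2, 2 * Pi (TT Tr g) (st1 p.1)) : ℕ × ℕ),
      (p.1.1, p.1.2.1)) : Arg)) :=
    hst.pair ((hw.pair hP).pair ((Computable.fst.comp Computable.fst).pair
      (Computable.fst.comp (Computable.snd.comp Computable.fst))))
  refine Computable.computablePred (Computable.of_eq
    (gen_prim.computablePred.decide.comp harg) fun a => ?_)
  rw [Bool.eq_iff_iff]
  simp only [decide_eq_true_eq]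
  unfold tst
  rw [wL_Ls]

open Classical in
/-- characteristic function of an ideal of a ring on a set of naturals -/
noncomputable def chi {A : Set ℕ} [CommRing A] (J : Ideal A) : ℕ → ℕ :=
  fun n => if ∃ h : n ∈ A, (⟨n, h⟩ : A) ∈ J then 1 else 0

theorem chi_red (hT : IsLev (TT Tr g)) (hne : ∀ s, (TT Tr g s).Nonempty)
    (hTr : ComputablePred (· ∈ Tr)) (hg : Computable g) {x : ℕ → ℕ}
    (hx : IsPath (TT Tr g) x) :
    letI := ring (pr hT) (pr_surj hT)
    TuringReducible (chi (Jx hT x) : ℕ →. ℕ) (x : ℕ →. ℕ) := by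
  classical
  letI := ring (pr hT) (pr_surj hT)
  have hnd : Computable (fun n => norm (TT Tr g) (dec n)) := (norm_comp hTr hg).comp dec_comp
  have h1 : ComputablePred (fun p : ℕ × List ℕ => tst (TT Tr g) (norm (TT Tr g) (dec p.1)) p.2) := by
    have := (tst_comp hTr hg).decide.comp ((hnd.comp Computable.fst).pair Computable.snd :
      Computable (fun p : ℕ × List ℕ => (norm (TT Tr g) (dec p.1), p.2)))
    exact Computable.computablePred (Computable.of_eq this fun p => rfl)
  have h2 : Computable (fun p : ℕ × List ℕ => decide (p.1 ∈ Car (pr hT))) :=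
    (car_comp (pr hT) (pr_comp hT hne hTr hg)).decide.comp Computable.fst
  have h3 : Computable (fun p : ℕ × List ℕ =>
      (decide (p.1 ∈ Car (pr hT)) && decide (tst (TT Tr g) (norm (TT Tr g) (dec p.1)) p.2))) :=
    Primrec.and.to_comp.comp h2 h1.decide
  have h4 := Computable.cond h3 (Computable.const 1) (Computable.const 0)
  refine Oracle.red_of_tt (Φ := fun n l => bif (decide (n ∈ Car (pr hT)) &&
    decide (tst (TT Tr g) (norm (TT Tr g) (dec n)) l)) then 1 else 0)
    (u := fun n => st1 (norm (TT Tr g) (dec n))) h4 (st1_comp.comp hnd) fun n => ?_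
  unfold chi
  by_cases hn : n ∈ Car (pr hT)
  · have h5 := mem_Jx_test hT hx ⟨n, hn⟩
    by_cases h6 : (⟨n, hn⟩ : Car (pr hT)) ∈ Jx hT x
    · rw [if_pos ⟨hn, h6⟩]
      rw [h5] at h6
      have h7 : tst (TT Tr g) (norm (TT Tr g) (dec n))
        ((List.range (st1 (norm (TT Tr g) (dec n)))).map x) := h6
      simp [hn, h7]
    · rw [if_neg (by rintro ⟨_, h'⟩; exact h6 h')]
      rw [h5] at h6
      have h7 : ¬ tst (TT Tr g) (norm (TT Tr g) (dec n))
        ((List.range (st1 (norm (TT Tr g) (dec n)))).map x) := h6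
      simp [hn, h7]
  · rw [if_neg (by rintro ⟨h', _⟩; exact hn h')]
    simp [hn]

/-- running maximum over the nodes selected by a list of bits -/
noncomputable def pick (cd : Str → ℕ) (L : List ℕ) (acc : Str) (ρ : Str) : Str :=
  if L.getD (cd ρ) 0 = 1 ∧ acc ≤ ρ then ρ else acc

theorem pick_foldl (cd : Str → ℕ) (L : List ℕ) (lv : List Str) (y : Str) (hy : y ∈ lv)
    (h1 : ∀ ρ ∈ lv, L.getD (cd ρ) 0 = 1 ↔ ρ ≤ y) :
    lv.foldl (pick cd L) [] = y := by
  have key : ∀ (l : List Str) (acc : Str), (∀ ρ ∈ l, L.getD (cd ρ) 0 = 1 ↔ ρ ≤ y) → acc ≤ y →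
      (acc = y ∨ y ∈ l) → l.foldl (pick cd L) acc = y := by
    intro l
    induction l with
    | nil => intro acc _ _ h; simpa using h
    | cons ρ l ih =>
      intro acc hl hacc hor
      rw [List.foldl_cons]
      have hρ := hl ρ (by simp)
      apply ih _ (fun ρ' h' => hl ρ' (by simp [h']))
      · unfold pick
        split_ifs with h
        · exact hρ.1 h.1
        · exact hacc
      · unfold pick
        rcases hor with rfl | hor
        · left
          split_ifs with h
          · exact le_antisymm (hρ.1 h.1) h.2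
          · rfl
        · rw [List.mem_cons] at hor
          rcases hor with rfl | hor
          · left
            rw [if_pos ⟨hρ.2 le_rfl, hacc⟩]
          · exact Or.inr hor
  exact key lv [] h1 (nil_le' y) (Or.inr hy)

theorem code_comp (hT : IsLev (TT Tr g)) (hne : ∀ s, (TT Tr g s).Nonempty)
    (hTr : ComputablePred (· ∈ Tr)) (hg : Computable g) : Computable (code hT) :=
  (rep_comp (pr hT) (pr_comp hT hne hTr hg)).comp (Computable.encode.comp tix_comp)

theorem red_chi (hT : IsLev (TT Tr g)) (hne : ∀ s, (TT Tr g s).Nonempty)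
    (hTr : ComputablePred (· ∈ Tr)) (hg : Computable g) {x : ℕ → ℕ}
    (hx : IsPath (TT Tr g) x) :
    letI := ring (pr hT) (pr_surj hT)
    TuringReducible (x : ℕ →. ℕ) (chi (Jx hT x) : ℕ →. ℕ) := by
  classical
  letI := ring (pr hT) (pr_surj hT)
  have hcode := code_comp hT hne hTr hg
  have hlev : Computable (fun n => lev Tr g (n + 1)) := (comp_lev Tr g hTr hg).comp Computable.succ
  -- the use function
  have hu : Computable (fun n => (lev Tr g (n + 1)).foldl (fun (m : ℕ) ρ => m + (code hT ρ + 1)) 0) := by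
    have h1 : Computable₂ (fun (_ : ℕ) (p : ℕ × Str) => p.1 + (code hT p.2 + 1)) :=
      (Primrec.nat_add.to_comp.comp (Computable.fst.comp Computable.snd)
        (Computable.succ.comp (hcode.comp (Computable.snd.comp Computable.snd)))).to₂
    exact comp_foldl hlev (Computable.const 0) h1
  have hPhi : Computable₂ (fun (n : ℕ) (L : List ℕ) =>
      ((lev Tr g (n + 1)).foldl (pick (code hT) L) []).getD n 0) := by
    have h1 : Computable (fun q : (ℕ × List ℕ) × (Str × Str) => q.1.2.getD (code hT q.2.2) 0) :=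
      (Primrec.list_getD 0).to_comp.comp (Computable.snd.comp Computable.fst)
        (hcode.comp (Computable.snd.comp Computable.snd))
    have h2 : Computable (fun q : (ℕ × List ℕ) × (Str × Str) =>
        decide (q.1.2.getD (code hT q.2.2) 0 = 1)) :=
      (Primrec.eq (α := ℕ)).decide.to_comp.comp h1 (Computable.const 1)
    have h3 : Computable (fun q : (ℕ × List ℕ) × (Str × Str) => decide (q.2.1 ≤ q.2.2)) :=
      le_prim.decide.to_comp.comp (Computable.fst.comp Computable.snd)
        (Computable.snd.comp Computable.snd)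
    have h4 := Computable.cond (Primrec.and.to_comp.comp h2 h3)
      (Computable.snd.comp Computable.snd) (Computable.fst.comp Computable.snd)
    have h5 : Computable₂ (fun (p : ℕ × List ℕ) (q : Str × Str) => pick (code hT) p.2 q.1 q.2) := by
      refine Computable.of_eq h4 fun q => ?_
      unfold pick
      by_cases ha : q.1.2.getD (code hT q.2.2) 0 = 1 <;> by_cases hb : q.2.1 ≤ q.2.2 <;>
        simp [ha, hb]
    have h6 : Computable (fun p : ℕ × List ℕ =>
        (lev Tr g (p.1 + 1)).foldl (pick (code hT) p.2) []) :=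
      comp_foldl (hlev.comp Computable.fst) (Computable.const []) h5
    exact (Primrec.list_getD 0).to_comp.comp h6 Computable.fst
  refine Oracle.red_of_tt hPhi hu fun n => ?_
  set U := (lev Tr g (n + 1)).foldl (fun (m : ℕ) ρ => m + (code hT ρ + 1)) 0 with hU
  have hlt : ∀ ρ ∈ lev Tr g (n + 1), code hT ρ < U := by
    have key : ∀ (l : List Str) (m : ℕ), m ≤ l.foldl (fun (m : ℕ) ρ => m + (code hT ρ + 1)) m ∧
        ∀ ρ ∈ l, code hT ρ < l.foldl (fun (m : ℕ) ρ => m + (code hT ρ + 1)) m := by
      intro l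
      induction l with
      | nil => intro m; simp
      | cons τ l ih =>
        intro m
        rw [List.foldl_cons]
        obtain ⟨h1, h2⟩ := ih (m + (code hT τ + 1))
        refine ⟨by omega, ?_⟩
        intro ρ hρ
        rw [List.mem_cons] at hρ
        rcases hρ with rfl | hρ
        · omega
        · exact h2 ρ hρ
    exact (key _ 0).2
  have hget : ∀ k, k < U → ((List.range U).map (chi (Jx hT x))).getD k 0 = chi (Jx hT x) k := by
    intro k hk
    rw [List.getD_eq_getElem _ _ (by simpa using hk)]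
    simp
  have hxn : restr x (n + 1) ∈ lev Tr g (n + 1) := by
    have := hx (n + 1)
    unfold TT at this
    rwa [List.mem_toFinset] at this
  have hpick := pick_foldl (code hT) ((List.range U).map (chi (Jx hT x))) (lev Tr g (n + 1))
    (restr x (n + 1)) hxn (fun ρ hρ => by
      rw [hget _ (hlt ρ hρ)]
      have hρ' : ρ ∈ TT Tr g (n + 1) := by unfold TT; rwa [List.mem_toFinset]
      rw [← code_mem_iff hT hx hρ']
      unfold chi
      constructor
      · intro h
        by_contra hcon
        rw [if_neg (by rintro ⟨_, h'⟩; exact hcon h')] at h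
        exact absurd h (by norm_num)
      · intro h
        rw [if_pos ⟨_, h⟩])
  rw [hpick]
  have : n < (restr x (n + 1)).length := by rw [restr_length]; omega
  rw [List.getD_eq_getElem _ _ this]
  simp [restr]

end comp

end Pool.Agent.Helper298.Main
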